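import Mathlib

set_option autoImplicit false

namespace Pool.Agent.Lib.MP_f20cd2_co

open Finset

/-- vertices of one gadget: six single vertices and two cliques of size `b` -/
abbrev W (b : ℕ) := Fin 6 ⊕ (Bool × Fin b)

abbrev V (x m b : ℕ) := Fin x ⊕ (Fin m × W b)

def cls {b : ℕ} : W b → Fin 8
  | Sum.inl s => ⟨s.val, by omega⟩
  | Sum.inr (false, _) => 6
  | Sum.inr (true, _) => 7

def R (a c : Fin 8) : Bool :=
  (a ∈ ({0, 2, 4} : Finset (Fin 8)) && c ∈ ({0, 2, 4} : Finset (Fin 8))) ||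
  (a ∈ ({1, 3, 5} : Finset (Fin 8)) && c ∈ ({1, 3, 5} : Finset (Fin 8))) ||
  (a ∈ ({2, 3, 6} : Finset (Fin 8)) && c ∈ ({2, 3, 6} : Finset (Fin 8))) ||
  (a ∈ ({4, 5, 7} : Finset (Fin 8)) && c ∈ ({4, 5, 7} : Finset (Fin 8)))

lemma R_symm : ∀ a c : Fin 8, R a c = R c a := by decide

def rel {x m b : ℕ} : V x m b → V x m b → Prop
  | Sum.inl _, _ => True
  | Sum.inr _, Sum.inl _ => True
  | Sum.inr (i, w), Sum.inr (j, w') =>
      (i = j ∧ R (cls w) (cls w') = true) ∨ ((cls w).val ≤ 1 ∧ (cls w').val ≤ 1)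

lemma rel_symm {x m b : ℕ} (u v : V x m b) (h : rel u v) : rel v u := by
  rcases u with u | ⟨i, w⟩ <;> rcases v with v | ⟨j, w'⟩ <;> simp only [rel] at h ⊢
  rcases h with ⟨h1, h2⟩ | ⟨h1, h2⟩
  · exact Or.inl ⟨h1.symm, by rw [R_symm]; exact h2⟩
  · exact Or.inr ⟨h2, h1⟩

def G (x m b : ℕ) : SimpleGraph (V x m b) where
  Adj u v := u ≠ v ∧ rel u v
  symm := ⟨fun u v h => ⟨h.1.symm, rel_symm u v h.2⟩⟩
  loopless := ⟨fun u h => h.1 rfl⟩

/-- the single vertex `s` of gadget `i` -/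
abbrev sg {x m b : ℕ} (i : Fin m) (s : Fin 6) : V x m b := Sum.inr (i, Sum.inl s)

/-- a clique vertex of gadget `i` -/
abbrev bl {x m b : ℕ} (i : Fin m) (σ : Bool) (c : Fin b) : V x m b := Sum.inr (i, Sum.inr (σ, c))

lemma cls_eq_small {b : ℕ} (w : W b) (s : Fin 6) (h : (cls w).val = s.val) : w = Sum.inl s := by
  rcases w with s' | ⟨σ, c⟩
  · simp only [cls] at h
    exact congrArg Sum.inl (Fin.ext h)
  · have := s.isLt
    cases σ <;> simp only [cls] at h <;> (first | (exfalso; revert h; simp; omega))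

lemma exit_edge {U : Type} (H : SimpleGraph U) (P : Set U) (hP : (H.induce P).Connected)
    (A : Set U) (a z : U) (haP : a ∈ P) (hzP : z ∈ P) (ha : a ∈ A) (hz : z ∉ A) :
    ∃ u v, u ∈ P ∧ v ∈ P ∧ u ∈ A ∧ v ∉ A ∧ H.Adj u v := by
  obtain ⟨w⟩ := hP.preconnected ⟨a, haP⟩ ⟨z, hzP⟩
  have key : ∀ (p q : P) (w : (H.induce P).Walk p q), p.val ∈ A → q.val ∉ A →
      ∃ u v, u ∈ P ∧ v ∈ P ∧ u ∈ A ∧ v ∉ A ∧ H.Adj u v := by
    intro p q w
    induction w with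
    | nil => intro h1 h2; exact absurd h1 h2
    | @cons p r q hadj w ih =>
      intro h1 h2
      by_cases hr : r.val ∈ A
      · exact ih hr h2
      · exact ⟨p.val, r.val, p.2, r.2, h1, hr, hadj⟩
  exact key _ _ w ha hz

end Pool.Agent.Lib.MP_f20cd2_co
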