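import Mathlib

set_option autoImplicit false
set_option linter.unusedSectionVars false

namespace Pool.Agent.Lib.MP_f20cd2_co.H83

open Finset

variable {V : Type} [DecidableEq V] (G : SimpleGraph V)

/-- cut form of connectivity of a finite vertex set -/
def Conn (P : Finset V) : Prop :=
  P.Nonempty ∧ ∀ A ⊆ P, A.Nonempty → A ≠ P → ∃ a ∈ A, ∃ b ∈ P, b ∉ A ∧ G.Adj a b

variable {G}

lemma Conn.single (v : V) : Conn G {v} := by
  refine ⟨singleton_nonempty v, fun A hA hne hAP => ?_⟩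
  exact absurd ((subset_singleton_iff.mp hA).resolve_left hne.ne_empty) hAP

lemma Conn.insert {P : Finset V} (hP : Conn G P) {r v : V} (hv : v ∈ P) (hr : G.Adj r v) :
    Conn G (insert r P) := by
  refine ⟨insert_nonempty r P, fun A hA hne hAP => ?_⟩
  by_cases hrP : r ∈ P
  · rw [insert_eq_of_mem hrP] at hA hAP ⊢
    exact hP.2 A hA hne hAP
  by_cases h1 : (A.erase r) = P
  · -- then r ∉ A
    have hrA : r ∉ A := by
      intro h
      apply hAP
      rw [← h1, insert_erase h]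
    refine ⟨v, ?_, r, mem_insert_self _ _, hrA, hr.symm⟩
    rw [← h1] at hv
    exact mem_of_mem_erase hv
  by_cases h2 : (A.erase r).Nonempty
  · have hsub : A.erase r ⊆ P := by
      intro x hx
      rcases mem_insert.mp (hA (mem_of_mem_erase hx)) with h | h
      · exact absurd h (ne_of_mem_erase hx)
      · exact h
    obtain ⟨a, ha, b, hb, hbA, hab⟩ := hP.2 _ hsub h2 h1
    refine ⟨a, mem_of_mem_erase ha, b, mem_insert_of_mem hb, fun h => hbA ?_, hab⟩
    exact mem_erase.mpr ⟨fun h' => hrP (h' ▸ hb), h⟩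
  · have hA' : ∀ x ∈ A, x = r := by
      intro x hx
      by_contra h
      exact h2 ⟨x, mem_erase.mpr ⟨h, hx⟩⟩
    obtain ⟨x, hx⟩ := hne
    have hxr := hA' x hx
    subst hxr
    refine ⟨x, hx, v, mem_insert_of_mem hv, fun h => ?_, hr⟩
    exact hrP (hA' v h ▸ hv)

/-- growth lemma -/
lemma Conn.exists_erase {T : Finset V} (hT : Conn G T) :
    ∀ (n : ℕ) (W : Finset V), Conn G W → W ⊆ T → W ≠ T → (T \ W).card = n →
      ∃ x ∈ T, x ∉ W ∧ Conn G (T.erase x) := by
  intro n
  induction n using Nat.strong_induction_on with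
  | _ n ih =>
    intro W hW hWT hne hn
    obtain ⟨a, ha, b, hb, hbW, hab⟩ := hT.2 W hWT hW.1 hne
    have hW' : Conn G (Insert.insert b W) := hW.insert ha hab.symm
    by_cases h : Insert.insert b W = T
    · refine ⟨b, hb, hbW, ?_⟩
      rw [← h, erase_insert hbW]
      exact hW
    · have hsub : Insert.insert b W ⊆ T := insert_subset hb hWT
      have hlt : (T \ Insert.insert b W).card < n := by
        rw [← hn]
        apply card_lt_card
        refine ⟨sdiff_subset_sdiff (Subset.refl _) (subset_insert _ _), fun h' => ?_⟩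
        have : b ∈ T \ Insert.insert b W := h' (mem_sdiff.mpr ⟨hb, hbW⟩)
        exact (mem_sdiff.mp this).2 (mem_insert_self _ _)
      obtain ⟨x, hx, hxW, hc⟩ := ih _ hlt _ hW' hsub h rfl
      exact ⟨x, hx, fun h' => hxW (mem_insert_of_mem h'), hc⟩

lemma Conn.grow {T W : Finset V} (hT : Conn G T) (hW : Conn G W) (hWT : W ⊆ T) (hne : W ≠ T) :
    ∃ x ∈ T, x ∉ W ∧ Conn G (T.erase x) :=
  hT.exists_erase _ W hW hWT hne rfl

/-- removing a closed piece that avoids `u` and is only attached through `u` -/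
lemma Conn.sdiff_closed {T Q : Finset V} (hT : Conn G T) {u : V} (hu : u ∈ T) (huQ : u ∉ Q)
    (hcl : ∀ q ∈ Q, ∀ b ∈ T, b ∉ Q → G.Adj q b → b = u) : Conn G (T \ Q) := by
  have key : ∀ A ⊆ T \ Q, A.Nonempty → u ∉ A → ∃ a ∈ A, ∃ b ∈ T \ Q, b ∉ A ∧ G.Adj a b := by
    intro A hA hne huA
    have hAT : A ⊆ T := hA.trans sdiff_subset
    obtain ⟨a, ha, b, hb, hbA, hab⟩ := hT.2 A hAT hne (fun h => huA (h ▸ hu))
    refine ⟨a, ha, b, mem_sdiff.mpr ⟨hb, fun hbQ => ?_⟩, hbA, hab⟩
    have := hcl b hbQ a (hAT ha) (mem_sdiff.mp (hA ha)).2 hab.symm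
    exact huA (this ▸ ha)
  refine ⟨⟨u, mem_sdiff.mpr ⟨hu, huQ⟩⟩, fun A hA hne hAP => ?_⟩
  by_cases huA : u ∈ A
  · have hne' : ((T \ Q) \ A).Nonempty := by
      rw [sdiff_nonempty]
      exact fun h => hAP (Subset.antisymm hA h)
    obtain ⟨a, ha, b, hb, hbA, hab⟩ := key _ sdiff_subset hne'
      (fun h => (mem_sdiff.mp h).2 huA)
    refine ⟨b, ?_, a, (mem_sdiff.mp ha).1, (mem_sdiff.mp ha).2, hab.symm⟩
    by_contra h
    exact hbA (mem_sdiff.mpr ⟨hb, h⟩)
  · exact key A hA hne huA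

lemma Conn.connected {P : Finset V} (hP : Conn G P) : (G.induce (P : Set V)).Connected := by
  classical
  obtain ⟨v, hv⟩ := hP.1
  have : Nonempty (P : Set V) := ⟨⟨v, hv⟩⟩
  refine ⟨fun x y => ?_⟩
  -- set of vertices reachable from x
  let A : Finset V := P.filter (fun w => ∃ h : w ∈ (P : Set V), (G.induce (P : Set V)).Reachable x ⟨w, h⟩)
  have hA : A = P := by
    by_contra hne
    obtain ⟨a, ha, b, hb, hbA, hab⟩ := hP.2 A (filter_subset _ _)
      ⟨x.1, mem_filter.mpr ⟨x.2, x.2, SimpleGraph.Reachable.refl _⟩⟩ hne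
    obtain ⟨haP, h, hr⟩ := mem_filter.mp ha
    apply hbA
    refine mem_filter.mpr ⟨hb, hb, hr.trans (SimpleGraph.Adj.reachable ?_)⟩
    exact hab
  have hy : y.1 ∈ A := by
    rw [hA]
    exact y.2
  obtain ⟨_, h, hr⟩ := mem_filter.mp hy
  exact hr

/-- `I` splits into at least `c` mutually non-adjacent nonempty classes -/
def Cells (G : SimpleGraph V) (I : Finset V) (c : ℕ) : Prop :=
  ∃ l : V → ℕ, (∀ j < c, ∃ v ∈ I, l v = j) ∧ ∀ v ∈ I, ∀ w ∈ I, G.Adj v w → l v = l w

lemma Cells.one {I : Finset V} (h : I.Nonempty) : Cells G I 1 := by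
  obtain ⟨v, hv⟩ := h
  exact ⟨fun _ => 0, fun j hj => ⟨v, hv, by show 0 = j; omega⟩, fun _ _ _ _ _ => rfl⟩

lemma Cells.union {I J : Finset V} {c d : ℕ} (hI : Cells G I c) (hJ : Cells G J d)
    (hd : Disjoint I J) (hn : ∀ v ∈ I, ∀ w ∈ J, ¬ G.Adj v w) : Cells G (I ∪ J) (c + d) := by
  obtain ⟨l, h1, h2⟩ := hI
  obtain ⟨m, h3, h4⟩ := hJ
  refine ⟨fun v => if v ∈ I then (if l v < c then l v else c + d) else c + m v, ?_, ?_⟩
  · intro j hj
    by_cases hjc : j < c
    · obtain ⟨v, hv, hl⟩ := h1 j hjc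
      refine ⟨v, mem_union_left _ hv, ?_⟩
      simp only [hv, if_true, hl, hjc]
    · obtain ⟨v, hv, hl⟩ := h3 (j - c) (by omega)
      have hvI : v ∉ I := fun h => disjoint_left.mp hd h hv
      refine ⟨v, mem_union_right _ hv, ?_⟩
      simp only [hvI, if_false, hl]
      omega
  · intro v hv w hw hvw
    by_cases hvI : v ∈ I <;> by_cases hwI : w ∈ I
    · simp only [hvI, hwI, if_true, h2 v hvI w hwI hvw]
    · exact absurd hvw (hn v hvI w ((mem_union.mp hw).resolve_left hwI))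
    · exact absurd hvw.symm (hn w hwI v ((mem_union.mp hv).resolve_left hvI))
    · simp only [hvI, hwI, if_false,
        h4 v ((mem_union.mp hv).resolve_left hvI) w ((mem_union.mp hw).resolve_left hwI) hvw]

lemma Cells.le_card [Fintype V] {I : Finset V} {c : ℕ} (hI : Cells G I c) :
    c ≤ Nat.card (G.induce (I : Set V)).ConnectedComponent := by
  classical
  obtain ⟨l, h1, h2⟩ := hI
  let φ : (G.induce (I : Set V)).ConnectedComponent → ℕ :=
    SimpleGraph.ConnectedComponent.lift (fun v => l v.1) (by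
      intro v w p _
      induction p with
      | nil => rfl
      | cons h p ih =>
        rename_i a b d hp
        rw [← ih hp.of_cons]
        exact h2 _ a.2 _ b.2 h)
  have hsurj : ∀ j : Fin c, ∃ C, φ C = j := by
    intro j
    obtain ⟨v, hv, hl⟩ := h1 j j.2
    exact ⟨(G.induce (I : Set V)).connectedComponentMk ⟨v, hv⟩, hl⟩
  choose g hg using hsurj
  have hinj : Function.Injective g := by
    intro a b h
    apply Fin.ext
    rw [← hg a, ← hg b, h]
  simpa using Nat.card_le_card_of_injective g hinj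

end Pool.Agent.Lib.MP_f20cd2_co.H83
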