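import Pool.Agent.Lib.MP_f20cd2_co.H83Main

set_option autoImplicit false
set_option linter.unusedSectionVars false

namespace Pool.Agent.Lib.MP_f20cd2_co.H83

open Finset

variable {V : Type} [DecidableEq V] [Fintype V] {G : SimpleGraph V}

/-- the small parts can be rearranged so that an uncovered vertex lies next to the target -/
theorem grow {m : ℕ} {t : ℝ} (ht : 0 < t) (hG : Tough G t) {k : ℕ} (hk : (k : ℝ) ≤ t)
    (P : Fin m → Finset V) (J : Finset (Fin m))
    (hdis : ∀ i j, i ≠ j → Disjoint (P i) (P j))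
    (hJ : ∀ i ∈ J, Conn G (P i) ∧ (P i).card ≤ k + 1)
    {r : V} (hr : ∀ i, r ∉ P i) {j0 : Fin m} (hj0 : j0 ∉ J) {d : V} (hd : d ∈ P j0) :
    ∃ (P' : Fin m → Finset V) (v : V) (j : Fin m), (∀ i j, i ≠ j → Disjoint (P' i) (P' j)) ∧
      (∀ i ∈ J, Conn G (P' i) ∧ (P' i).card = (P i).card) ∧ (∀ i, i ∉ J → P' i = P i) ∧
      (∀ i, v ∉ P' i) ∧ j ∉ J ∧ ∃ w ∈ P j, G.Adj v w := by
  classical
  let U : Finset V := univ.filter (fun u => u ≠ r ∧ ∀ i, u ∉ P i)
  let K : St V (J ⊕ U) := ⟨r, Sum.elim (fun i => P i) (fun u => {u.1})⟩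
  have memU : ∀ u, u ∈ U ↔ u ≠ r ∧ ∀ i, u ∉ P i := by
    intro u
    simp [U]
  have hK : Good G (k + 1) K := by
    refine ⟨?_, ?_, ?_, ?_⟩
    · rintro (i | u)
      · exact hr i
      · exact fun h => ((memU u).mp u.2).1 (mem_singleton.mp h).symm
    · rintro (i | u) (j | u') h
      · exact hdis i j (fun e => h (congrArg _ (Subtype.ext e)))
      · exact disjoint_singleton_right.mpr (((memU u').mp u'.2).2 i)
      · exact disjoint_singleton_left.mpr (((memU u).mp u.2).2 j)
      · exact disjoint_singleton.mpr (fun e => h (congrArg _ (Subtype.ext e)))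
    · rintro (i | u)
      · exact (hJ i i.2).1
      · exact Conn.single _
    · rintro (i | u)
      · exact (hJ i i.2).2
      · show ({u.1} : Finset V).card ≤ k + 1
        simp
  have hUn : ∀ w, w ∉ Un univ K ↔ ∃ j, j ∉ J ∧ w ∈ P j := by
    intro w
    rw [mem_Un]
    constructor
    · intro h
      by_contra hcon
      push Not at hcon
      apply h
      by_cases hwr : w = r
      · exact Or.inl hwr
      by_cases hw : ∃ i, w ∈ P i
      · obtain ⟨i, hi⟩ := hw
        have hiJ : i ∈ J := by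
          by_contra hiJ
          exact hcon i hiJ hi
        exact Or.inr ⟨Sum.inl ⟨i, hiJ⟩, mem_univ _, hi⟩
      · push Not at hw
        exact Or.inr ⟨Sum.inr ⟨w, (memU w).mpr ⟨hwr, hw⟩⟩, mem_univ _, mem_singleton_self _⟩
    · rintro ⟨j, hj, hw⟩ (h | ⟨i | u, _, h⟩)
      · have h' : w = r := h
        exact hr j (h' ▸ hw)
      · exact disjoint_left.mp (hdis i j (fun e => hj (e ▸ i.2))) h hw
      · have : w = u.1 := mem_singleton.mp h
        exact ((memU u).mp u.2).2 j (this ▸ hw)
  obtain ⟨K', hr', w, hw, hadj⟩ := reach_target ht hG hk K hK ((hUn d).mpr ⟨j0, hj0, hd⟩)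
  obtain ⟨j, hj, hwj⟩ := (hUn w).mp hw
  have hK' := hr'.good hK
  have hU' : Un univ K' = Un univ K := hr'.Un_eq (Subset.refl _)
  have hout : ∀ i : J, ∀ j, j ∉ J → Disjoint (K'.P (Sum.inl i)) (P j) := by
    intro i j hj
    rw [disjoint_left]
    intro x hx hx'
    refine (hUn x).mpr ⟨j, hj, hx'⟩ ?_
    rw [← hU']
    exact mem_Un.mpr (Or.inr ⟨_, mem_univ _, hx⟩)
  refine ⟨fun i => if h : i ∈ J then K'.P (Sum.inl ⟨i, h⟩) else P i, K'.r, j, ?_, ?_, ?_, ?_,
    hj, w, hwj, hadj⟩
  · intro a b hab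
    by_cases ha : a ∈ J <;> by_cases hb : b ∈ J
    · simp only [ha, hb, dif_pos]
      exact hK'.2.1 _ _ (fun e => hab (congrArg Subtype.val (Sum.inl_injective e)))
    · simp only [ha, hb, dif_pos, dif_neg, not_false_eq_true]
      exact hout _ b hb
    · simp only [ha, hb, dif_pos, dif_neg, not_false_eq_true]
      exact (hout _ a ha).symm
    · simp only [ha, hb, dif_neg, not_false_eq_true]
      exact hdis a b hab
  · intro i hi
    simp only [hi, dif_pos]
    exact ⟨hK'.2.2.1 _, hr'.card_eq hK _⟩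
  · intro i hi
    simp only [hi, dif_neg, not_false_eq_true]
  · intro i
    by_cases hi : i ∈ J
    · simp only [hi, dif_pos]
      exact hK'.1 _
    · simp only [hi, dif_neg, not_false_eq_true]
      intro h
      refine (hUn _).mpr ⟨i, hi, h⟩ ?_
      rw [← hU']
      exact mem_insert_self _ _

/-- admissible incomplete realisations -/
def Adm (G : SimpleGraph V) {m : ℕ} (a : Fin m → ℕ) (i0 : Fin m) (P : Fin m → Finset V) : Prop :=
  (∀ i j, i ≠ j → Disjoint (P i) (P j)) ∧ (∀ i, P i = ∅ ∨ Conn G (P i)) ∧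
    (∀ i, (P i).card ≤ a i) ∧ (P i0 = ∅ ∨ ∀ i, i ≠ i0 → (P i).card = a i)

lemma adm_add {m : ℕ} {a : Fin m → ℕ} {i0 : Fin m} {P : Fin m → Finset V} (hP : Adm G a i0 P)
    {v : V} (hv : ∀ i, v ∉ P i) {j : Fin m} (hj : (P j).card < a j)
    (hc : Conn G (insert v (P j))) (h0 : j = i0 → ∀ i, i ≠ i0 → (P i).card = a i) :
    ∃ P', Adm G a i0 P' ∧ ∑ i, (P' i).card = ∑ i, (P i).card + 1 := by
  refine ⟨Function.update P j (insert v (P j)), ⟨?_, ?_, ?_, ?_⟩, ?_⟩
  · intro x y hxy
    by_cases hx : x = j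
    · subst hx
      rw [Function.update_self, Function.update_of_ne hxy.symm, disjoint_insert_left]
      exact ⟨hv y, hP.1 x y hxy⟩
    · by_cases hy : y = j
      · subst hy
        rw [Function.update_self, Function.update_of_ne hx, disjoint_insert_right]
        exact ⟨hv x, hP.1 x y hxy⟩
      · rw [Function.update_of_ne hx, Function.update_of_ne hy]
        exact hP.1 x y hxy
  · intro i
    by_cases hi : i = j
    · subst hi
      rw [Function.update_self]
      exact Or.inr hc
    · rw [Function.update_of_ne hi]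
      exact hP.2.1 i
  · intro i
    by_cases hi : i = j
    · subst hi
      rw [Function.update_self, card_insert_of_notMem (hv i)]
      omega
    · rw [Function.update_of_ne hi]
      exact hP.2.2.1 i
  · by_cases hj0 : j = i0
    · right
      intro i hi
      rw [Function.update_of_ne (fun e => hi (e.trans hj0))]
      exact h0 hj0 i hi
    · rcases hP.2.2.2 with h | h
      · left
        rw [Function.update_of_ne (Ne.symm hj0)]
        exact h
      · have := h j hj0
        omega
  · rw [← add_sum_erase univ _ (mem_univ j), ← add_sum_erase univ (fun i => (P i).card) (mem_univ j),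
      Function.update_self, card_insert_of_notMem (hv j)]
    have : ∑ x ∈ univ.erase j, (Function.update P j (insert v (P j)) x).card =
        ∑ x ∈ univ.erase j, (P x).card :=
      sum_congr rfl fun x hx => by rw [Function.update_of_ne (ne_of_mem_erase hx)]
    rw [this]
    ring

lemma adm_step {m : ℕ} {t : ℝ} (ht : 0 < t) (hG : Tough G t) {k : ℕ} (hk : (k : ℝ) ≤ t)
    {a : Fin m → ℕ} (hpos : ∀ i, 0 < a i) (hsum : ∑ i, a i = Fintype.card V) {i0 : Fin m}
    (hsm : ∀ i, i ≠ i0 → a i ≤ k + 1) {P : Fin m → Finset V} (hP : Adm G a i0 P)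
    (hlt : ∑ i, (P i).card < Fintype.card V) :
    ∃ P', Adm G a i0 P' ∧ ∑ i, (P' i).card = ∑ i, (P i).card + 1 := by
  classical
  have hr : ∃ r, ∀ i, r ∉ P i := by
    by_contra hcon
    push Not at hcon
    have : (univ : Finset V) ⊆ univ.biUnion P := fun v _ => by
      obtain ⟨i, hi⟩ := hcon v
      exact mem_biUnion.mpr ⟨i, mem_univ _, hi⟩
    have h1 := (card_le_card this).trans card_biUnion_le
    rw [card_univ] at h1
    omega
  obtain ⟨r, hr⟩ := hr
  -- a deficient index, small if possible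
  have hj0 : ∃ j0, (P j0).card < a j0 ∧ (j0 = i0 → ∀ i, i ≠ i0 → (P i).card = a i) := by
    by_cases h : ∀ i, i ≠ i0 → (P i).card = a i
    · refine ⟨i0, ?_, fun _ => h⟩
      by_contra hcon
      have : ∑ i, (P i).card = ∑ i, a i := sum_congr rfl fun i _ => by
        by_cases hi : i = i0
        · have := hP.2.2.1 i0
          rw [hi]
          omega
        · exact h i hi
      omega
    · push Not at h
      obtain ⟨i, hi, hne⟩ := h
      exact ⟨i, lt_of_le_of_ne (hP.2.2.1 i) hne, fun e => absurd e hi⟩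
  obtain ⟨j0, hj0, hj0'⟩ := hj0
  by_cases he : P j0 = ∅
  · refine adm_add hP hr hj0 ?_ hj0'
    rw [he]
    exact Conn.single r
  obtain ⟨d, hd⟩ := nonempty_iff_ne_empty.mpr he
  let J : Finset (Fin m) := univ.filter (fun i => (P i).card = a i)
  have memJ : ∀ i, i ∈ J ↔ (P i).card = a i := by
    intro i
    simp [J]
  have hi0 : i0 ∉ J := by
    rw [memJ]
    intro h
    rcases hP.2.2.2 with h' | h'
    · have := hpos i0
      rw [h', card_empty] at h
      omega
    · by_cases e : j0 = i0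
      · rw [e] at hj0
        omega
      · have := h' j0 e
        omega
  obtain ⟨P', v, j, g1, g2, g3, g4, g5, w, hw, hadj⟩ := grow ht hG hk P J hP.1
    (fun i hi => by
      have h1 := (memJ i).mp hi
      refine ⟨(hP.2.1 i).resolve_left fun e => ?_, h1 ▸ hsm i (fun e => hi0 (e ▸ hi))⟩
      have := hpos i
      rw [e, card_empty] at h1
      omega) hr (j0 := j0) (by rw [memJ]; omega) hd
  have hcard : ∀ i, (P' i).card = (P i).card := by
    intro i
    by_cases hi : i ∈ J
    · exact (g2 i hi).2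
    · rw [g3 i hi]
  have hP' : Adm G a i0 P' := by
    refine ⟨g1, fun i => ?_, fun i => hcard i ▸ hP.2.2.1 i, ?_⟩
    · by_cases hi : i ∈ J
      · exact Or.inr (g2 i hi).1
      · rw [g3 i hi]
        exact hP.2.1 i
    · rw [g3 i0 hi0]
      simp only [hcard]
      exact hP.2.2.2
  have hjlt : (P' j).card < a j := by
    rw [hcard]
    exact lt_of_le_of_ne (hP.2.2.1 j) (fun e => g5 ((memJ j).mpr e))
  have hne : P j ≠ ∅ := ne_empty_of_mem hw
  obtain ⟨P'', h1, h2⟩ := adm_add hP' g4 hjlt
    (by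
      rw [g3 j g5]
      exact ((hP.2.1 j).resolve_left hne).insert hw hadj)
    (fun e => by
      simp only [hcard]
      exact hP.2.2.2.resolve_left (e ▸ hne))
  refine ⟨P'', h1, ?_⟩
  rw [h2]
  simp only [hcard]

theorem realise {m : ℕ} {t : ℝ} (ht : 0 < t) (hG : Tough G t) {k : ℕ} (hk : (k : ℝ) ≤ t)
    {a : Fin m → ℕ} (hpos : ∀ i, 0 < a i) (hsum : ∑ i, a i = Fintype.card V) {i0 : Fin m}
    (hsm : ∀ i, i ≠ i0 → a i ≤ k + 1) :
    ∃ f : V → Fin m, ∀ i, (f ⁻¹' {i}).ncard = a i ∧ (G.induce (f ⁻¹' {i})).Connected := by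
  classical
  have key : ∀ n, n ≤ Fintype.card V → ∃ P, Adm G a i0 P ∧ ∑ i, (P i).card = n := by
    intro n
    induction n with
    | zero =>
      intro _
      exact ⟨fun _ => ∅, ⟨fun _ _ _ => disjoint_empty_left _, fun _ => Or.inl rfl,
        fun _ => by simp, Or.inl rfl⟩, by simp⟩
    | succ n ih =>
      intro hn
      obtain ⟨P, hP, hs⟩ := ih (by omega)
      obtain ⟨P', hP', hs'⟩ := adm_step ht hG hk hpos hsum hsm hP (by omega)
      exact ⟨P', hP', by omega⟩
  obtain ⟨P, hP, hs⟩ := key _ le_rfl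
  have hfull : ∀ i, (P i).card = a i := by
    intro i
    by_contra hne
    have : ∑ i, (P i).card < ∑ i, a i :=
      sum_lt_sum (fun i _ => hP.2.2.1 i) ⟨i, mem_univ _, lt_of_le_of_ne (hP.2.2.1 i) hne⟩
    omega
  have hcov : univ.biUnion P = univ := by
    apply eq_univ_of_card
    rw [card_biUnion (fun i _ j _ h => hP.1 i j h), hs]
  have hex : ∀ v, ∃ i, v ∈ P i := by
    intro v
    have : v ∈ univ.biUnion P := hcov ▸ mem_univ v
    obtain ⟨i, _, hi⟩ := mem_biUnion.mp this
    exact ⟨i, hi⟩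
  choose f hf using hex
  refine ⟨f, fun i => ?_⟩
  have hset : f ⁻¹' {i} = (P i : Set V) := by
    ext v
    simp only [Set.mem_preimage, Set.mem_singleton_iff, mem_coe]
    constructor
    · rintro rfl
      exact hf v
    · intro hv
      by_contra hne
      exact disjoint_left.mp (hP.1 _ _ hne) (hf v) hv
  rw [hset, Set.ncard_coe_finset]
  refine ⟨hfull i, Conn.connected ((hP.2.1 i).resolve_left fun e => ?_)⟩
  have h1 := hfull i
  have := hpos i
  rw [e, card_empty] at h1
  omega

end Pool.Agent.Lib.MP_f20cd2_co.H83
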