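import Pool.Agent.Lib.MP_f20cd2_co.H83Token

set_option autoImplicit false
set_option linter.unusedSectionVars false

namespace Pool.Agent.Lib.MP_f20cd2_co.H83

open Finset

variable {V ι : Type} [DecidableEq V] [DecidableEq ι] {G : SimpleGraph V}

lemma Reach.mem_of_not_tok {J : Finset ι} {K K' : St V ι} (h : Reach G J K K') {i : ι} {u : V}
    (hu : u ∈ K.P i) (hn : ¬ Tok G J K u) : u ∈ K'.P i := by
  induction h with
  | refl => exact hu
  | tail h1 h ih =>
    have hr : Reach G J K _ := Relation.ReflTransGen.tail h1 h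
    obtain ⟨j, hj, f, hf, ht, hc, rfl⟩ := h
    by_cases hij : i = j
    · subst hij
      rw [mv_P_self]
      refine mem_insert_of_mem (mem_erase.mpr ⟨fun e => hn ⟨_, hr, ?_⟩, ih⟩)
      rw [mv_r, e]
    · rw [mv_P_ne _ _ hij]
      exact ih

/-- a safe state for a part containing a vertex that never becomes the token -/
lemma exists_safe {k : ℕ} {J : Finset ι} {K : St V ι} (hK : Good G k K) {i : ι}
    (hi : i ∈ Tch G J K) {u : V} (hu : u ∈ K.P i) (hn : ¬ Tok G J K u) :
    ∃ K1, Reach G J K K1 ∧ Touch G K1 i ∧ ∃ x ∈ K1.P i,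
      Conn G (insert K1.r ((K1.P i).erase x)) ∧ ∀ v, Tok G (J.erase i) K1 v → ¬ G.Adj v x := by
  classical
  obtain ⟨hiJ, K0, hK0, ht0⟩ := mem_Tch.mp hi
  let p : ℕ → Prop := fun n => ∃ K1, Reach G J K K1 ∧ Touch G K1 i ∧
    ∃ Q ⊆ (K1.P i).erase u, Conn G Q ∧ Q.card = n
  have hbd : ∀ n, p n → n ≤ k := by
    rintro n ⟨K1, h1, _, Q, hQ, _, rfl⟩
    exact ((card_le_card hQ).trans (card_erase_le)).trans ((h1.good hK).2.2.2 i)
  have hp1 : p 1 := by
    refine ⟨K0, hK0, ht0, ?_⟩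
    have hu0 := hK0.mem_of_not_tok hu hn
    by_cases he : ((K0.P i).erase u).Nonempty
    · obtain ⟨q, hq⟩ := he
      exact ⟨{q}, singleton_subset_iff.mpr hq, Conn.single q, card_singleton q⟩
    · exfalso
      rw [not_nonempty_iff_eq_empty] at he
      refine hn ⟨mv K0 i u, hK0.trans' (Reach.step hiJ hu0 ht0 ?_), rfl⟩
      rw [he]
      exact Conn.single _
  have hmax : ∀ n, p n → n ≤ Nat.findGreatest p k := fun n h => Nat.le_findGreatest (hbd n h) h
  obtain ⟨K1, h1, ht1, Q, hQ, hQc, hQn⟩ : p (Nat.findGreatest p k) :=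
    Nat.findGreatest_spec (hbd 1 hp1) hp1
  have hK1 := h1.good hK
  have hu1 := h1.mem_of_not_tok hu hn
  set T := K1.P i with hT
  have hTc : Conn G T := hK1.2.2.1 i
  have hQT : Q ⊆ T := hQ.trans (erase_subset _ _)
  have huQ : u ∉ Q := fun h => (notMem_erase u T) (hQ h)
  -- `Q` is closed in `T - u`
  have hcl : ∀ q ∈ Q, ∀ b ∈ T, b ∉ Q → G.Adj q b → b = u := by
    intro q hq b hb hbQ hadj
    by_contra hbu
    have := hmax _ ⟨K1, h1, ht1, insert b Q, insert_subset (mem_erase.mpr ⟨hbu, hb⟩) hQ,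
      hQc.insert hq hadj.symm, rfl⟩
    rw [card_insert_of_notMem hbQ] at this
    omega
  -- the token never touches `Q` while part `i` is frozen
  have hsafe : ∀ v, Tok G (J.erase i) K1 v → ∀ q ∈ Q, ¬ G.Adj v q := by
    rintro v ⟨K', h', rfl⟩ q hq hadj
    have hP : K'.P i = T := h'.P_eq (notMem_erase i J)
    have hr : Reach G J K K' := h1.trans' (h'.mono' (erase_subset _ _))
    have hK' := hr.good hK
    have htouch : Touch G K' i := ⟨q, hP ▸ hQT hq, hadj⟩
    have hrT : K'.r ∉ T := hP ▸ hK'.1 i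
    by_cases hQe : Q = T.erase u
    · refine hn ⟨mv K' i u, hr.trans' (Reach.step hiJ (hP ▸ hu1) htouch ?_), rfl⟩
      rw [hP, ← hQe]
      exact hQc.insert hq hadj
    · obtain ⟨a, ha, b, hb, hbQ, hab⟩ := hTc.2 Q hQT hQc.1 (fun e => huQ (e ▸ hu1))
      have hbu := hcl a ha b hb hbQ hab
      subst hbu
      have hW : Conn G (insert b Q) := hQc.insert ha hab.symm
      have hWT : insert b Q ≠ T := by
        intro e
        apply hQe
        rw [← e, erase_insert huQ]
      obtain ⟨f, hf, hfW, hfc⟩ := hTc.grow hW (insert_subset hb hQT) hWT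
      have hfQ : f ∉ Q := fun e => hfW (mem_insert_of_mem e)
      have hfb : f ≠ b := fun e => hfW (e ▸ mem_insert_self _ _)
      have hqf : q ∈ T.erase f := mem_erase.mpr ⟨fun e => hfQ (e ▸ hq), hQT hq⟩
      have hc : Conn G (insert K'.r ((K'.P i).erase f)) := by
        rw [hP]
        exact hfc.insert hqf hadj
      have hf' : f ∈ K'.P i := hP ▸ hf
      have := hmax _ ⟨mv K' i f, hr.trans' (Reach.step hiJ hf' htouch hc),
        mv_touch hK' hf' htouch, insert K'.r Q, ?_, hQc.insert hq hadj, rfl⟩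
      · rw [card_insert_of_notMem (fun e => hrT (hQT e))] at this
        omega
      · rw [mv_P_self, hP]
        intro w hw
        rcases mem_insert.mp hw with rfl | hw
        · exact mem_erase.mpr ⟨fun e => hrT (e ▸ hb), mem_insert_self _ _⟩
        · exact mem_erase.mpr ⟨fun e => huQ (e ▸ hw),
            mem_insert_of_mem (mem_erase.mpr ⟨fun e => hfQ (e ▸ hw), hQT hw⟩)⟩
  have hW : Conn G (T \ Q) := hTc.sdiff_closed hu1 huQ hcl
  have hne : T \ Q ≠ T := by
    intro e
    obtain ⟨q, hq⟩ := hQc.1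
    have : q ∈ T \ Q := e.symm ▸ hQT hq
    exact (mem_sdiff.mp this).2 hq
  obtain ⟨x, hx, hxW, hxc⟩ := hTc.grow hW sdiff_subset hne
  have hxQ : x ∈ Q := by
    by_contra h
    exact hxW (mem_sdiff.mpr ⟨hx, h⟩)
  refine ⟨K1, h1, ht1, x, hx, ?_, fun v hv => hsafe v hv x hxQ⟩
  obtain ⟨v, hv, hadj⟩ := ht1
  refine hxc.insert (mem_erase.mpr ⟨fun e => ?_, hv⟩) hadj
  exact hsafe _ ⟨K1, Reach.refl' _ _, rfl⟩ x hxQ (e ▸ hadj)

theorem main_lemma (k : ℕ) (J : Finset ι) :
    ∀ K : St V ι, Good G (k + 1) K → Concl G k J K := by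
  induction J using Finset.strongInduction with
  | H J ih =>
    intro K hK
    by_cases hall : ∀ v ∈ Un (Tch G J K) K, Tok G J K v
    · refine ⟨Un (Tch G J K) K, 1, one_pos, hall, Cells.one ⟨K.r, mem_insert_self _ _⟩, ?_⟩
      simp
    · push Not at hall
      obtain ⟨u, hu, hn⟩ := hall
      rcases mem_Un.mp hu with h | ⟨i, hi, h⟩
      · exact absurd ⟨K, Reach.refl' _ _, h.symm⟩ hn
      obtain ⟨K1, h1, ht, x, hx, hc, hs⟩ := exists_safe hK hi h hn
      have hiJ : i ∈ J := Tch_subset hi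
      have hK1 := h1.good hK
      obtain ⟨I, c, g0, g1, g2, g3⟩ := ih (J.erase i) (erase_ssubset hiJ) K1 hK1
      have hA : Tch G (J.erase i) K1 ⊆ J := Tch_subset.trans (erase_subset _ _)
      have hiA : i ∉ Tch G (J.erase i) K1 := fun e => notMem_erase i J (Tch_subset e)
      have hP : Pre G k J (Tch G (J.erase i) K1) K1 I c := by
        refine ⟨g0, fun v hv => ?_, g2, fun v hv => (g1 v hv).mem_Un, g3⟩
        obtain ⟨K', a, b⟩ := g1 v hv
        exact ⟨K', a.mono' (erase_subset _ _), b⟩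
      obtain ⟨A', I', c', _, a2, a3, a4⟩ := pre_step ih hA hK1 hP hiJ hiA hx ht hc
        (fun v hv => hs v (g1 v hv))
        (fun v hv j hj hjA hji w hw => (g1 v hv).not_adj (mem_erase.mpr ⟨hji, hj⟩) hjA hw)
      have := pre_concl ih _ A' a2 rfl _ (mv_good hK1 hx hc) I' c' a3 a4
      exact Concl.of_reach (h1.trans' (Reach.step hiJ hx ht hc)) hK this

/-- toughness, written with finite sets -/
def Tough [Fintype V] (G : SimpleGraph V) (t : ℝ) : Prop :=
  ∀ S : Set V, 1 < Nat.card (G.induce Sᶜ).ConnectedComponent →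
    t * Nat.card (G.induce Sᶜ).ConnectedComponent ≤ S.ncard

/-- the token reaches a neighbour of the uncovered set -/
theorem reach_target [Fintype V] [Fintype ι] {t : ℝ} (ht : 0 < t) (hG : Tough G t) {k : ℕ}
    (hk : (k : ℝ) ≤ t) (K : St V ι) (hK : Good G (k + 1) K) {d : V} (hd : d ∉ Un univ K) :
    ∃ K', Reach G univ K K' ∧ ∃ w, w ∉ Un univ K ∧ G.Adj K'.r w := by
  by_contra hcon
  push Not at hcon
  obtain ⟨I, c, h0, h1, h2, h3⟩ := main_lemma k univ K hK
  set Z := Un (Tch G univ K) K with hZ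
  have hZU : Z ⊆ Un univ K := by
    intro w hw
    rcases mem_Un.mp hw with h | ⟨i, _, h⟩
    · exact mem_Un.mpr (Or.inl h)
    · exact mem_Un.mpr (Or.inr ⟨i, mem_univ _, h⟩)
  have hIZ : I ⊆ Z := fun v hv => (h1 v hv).mem_Un
  have hcells : Cells G (I ∪ Zᶜ) (c + 1) := by
    refine h2.union (Cells.one ⟨d, mem_compl.mpr fun e => hd (hZU e)⟩) ?_ ?_
    · exact disjoint_left.mpr fun v hv hv' => (mem_compl.mp hv') (hIZ hv)
    · intro v hv w hw hadj
      rw [mem_compl] at hw
      by_cases hwU : w ∈ Un univ K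
      · rcases mem_Un.mp hwU with h | ⟨i, _, h⟩
        · exact hw (mem_Un.mpr (Or.inl h))
        · by_cases hi : i ∈ Tch G univ K
          · exact hw (mem_Un.mpr (Or.inr ⟨i, hi, h⟩))
          · exact (h1 v hv).not_adj (mem_univ i) hi h hadj
      · obtain ⟨K', a, b⟩ := h1 v hv
        exact hcon K' a w hwU (b ▸ hadj)
  have hle := hcells.le_card
  have hS : (((Z \ I : Finset V) : Set V))ᶜ = ((I ∪ Zᶜ : Finset V) : Set V) := by
    ext v
    simp only [coe_sdiff, Set.mem_compl_iff, Set.mem_sdiff, mem_coe, coe_union, coe_compl,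
      Set.mem_union]
    tauto
  have h4 := hG ((Z \ I : Finset V) : Set V) (by rw [hS]; omega)
  rw [hS, Set.ncard_coe_finset] at h4
  have h5 : ((c : ℝ) + 1) ≤ Nat.card (G.induce ((I ∪ Zᶜ : Finset V) : Set V)).ConnectedComponent := by
    exact_mod_cast hle
  have h6 : (((Z \ I).card : ℝ) + k ≤ k * c) := by exact_mod_cast h3
  have h7 : (1 : ℝ) ≤ c := by exact_mod_cast h0
  nlinarith [mul_le_mul_of_nonneg_left h5 ht.le, mul_le_mul_of_nonneg_right hk (sub_nonneg.mpr h7)]

end Pool.Agent.Lib.MP_f20cd2_co.H83
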