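import Pool.Agent.Lib.MP_f20cd2_co.H83Conn

set_option autoImplicit false
set_option linter.unusedSectionVars false

namespace Pool.Agent.Lib.MP_f20cd2_co.H83

open Finset

variable {V ι : Type} [DecidableEq V] [DecidableEq ι] (G : SimpleGraph V)

/-- a token together with a family of parts -/
structure St (V ι : Type) where
  r : V
  P : ι → Finset V

/-- the invariant of a state -/
def Good (k : ℕ) (K : St V ι) : Prop :=
  (∀ i, K.r ∉ K.P i) ∧ (∀ i j, i ≠ j → Disjoint (K.P i) (K.P j)) ∧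
    (∀ i, Conn G (K.P i)) ∧ ∀ i, (K.P i).card ≤ k

/-- the token enters part `i` and the vertex `f` leaves it -/
def mv (K : St V ι) (i : ι) (f : V) : St V ι :=
  ⟨f, Function.update K.P i (insert K.r ((K.P i).erase f))⟩

def Touch (K : St V ι) (i : ι) : Prop := ∃ v ∈ K.P i, G.Adj K.r v

def Step (J : Finset ι) (K K' : St V ι) : Prop :=
  ∃ i ∈ J, ∃ f ∈ K.P i, Touch G K i ∧ Conn G (insert K.r ((K.P i).erase f)) ∧ K' = mv K i f

def Reach (J : Finset ι) : St V ι → St V ι → Prop := Relation.ReflTransGen (Step G J)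

/-- vertex set spanned by the token and the parts in `A` -/
def Un (A : Finset ι) (K : St V ι) : Finset V := insert K.r (A.biUnion K.P)

variable {G}

lemma mv_P_self (K : St V ι) (i : ι) (f : V) :
    (mv K i f).P i = insert K.r ((K.P i).erase f) := by simp [mv]

lemma mv_P_ne (K : St V ι) {i j : ι} (f : V) (h : j ≠ i) : (mv K i f).P j = K.P j := by
  simp [mv, h]

lemma mv_r (K : St V ι) (i : ι) (f : V) : (mv K i f).r = f := rfl

lemma mv_card {k : ℕ} {K : St V ι} (hK : Good G k K) {i : ι} {f : V} (hf : f ∈ K.P i) (j : ι) :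
    ((mv K i f).P j).card = (K.P j).card := by
  by_cases h : j = i
  · subst h
    rw [mv_P_self, card_insert_of_notMem (fun h => hK.1 j (mem_of_mem_erase h)),
      card_erase_of_mem hf]
    have := card_pos.mpr ⟨f, hf⟩
    omega
  · rw [mv_P_ne _ _ h]

lemma mv_good {k : ℕ} {K : St V ι} (hK : Good G k K) {i : ι} {f : V} (hf : f ∈ K.P i)
    (hc : Conn G (insert K.r ((K.P i).erase f))) : Good G k (mv K i f) := by
  have hne : f ≠ K.r := fun h => hK.1 i (h ▸ hf)
  have aux : ∀ j, j ≠ i → Disjoint (insert K.r ((K.P i).erase f)) (K.P j) := by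
    intro j hj
    rw [disjoint_insert_left]
    exact ⟨hK.1 j, (hK.2.1 i j hj.symm).mono_left (erase_subset _ _)⟩
  refine ⟨fun j => ?_, fun a b hab => ?_, fun j => ?_, fun j => ?_⟩
  · rw [mv_r]
    by_cases h : j = i
    · subst h
      rw [mv_P_self]
      simp [hne]
    · rw [mv_P_ne _ _ h]
      exact fun h' => disjoint_left.mp (hK.2.1 i j (Ne.symm h)) hf h'
  · by_cases ha : a = i
    · subst ha
      rw [mv_P_self, mv_P_ne _ _ hab.symm]
      exact aux b hab.symm
    · by_cases hb : b = i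
      · subst hb
        rw [mv_P_self, mv_P_ne _ _ ha]
        exact (aux a ha).symm
      · rw [mv_P_ne _ _ ha, mv_P_ne _ _ hb]
        exact hK.2.1 a b hab
  · by_cases h : j = i
    · subst h
      rw [mv_P_self]
      exact hc
    · rw [mv_P_ne _ _ h]
      exact hK.2.2.1 j
  · rw [mv_card hK hf]
    exact hK.2.2.2 j

lemma mv_touch {k : ℕ} {K : St V ι} (hK : Good G k K) {i : ι} {f : V} (hf : f ∈ K.P i)
    (ht : Touch G K i) : Touch G (mv K i f) i := by
  unfold Touch
  rw [mv_P_self, mv_r]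
  by_cases h : ({f} : Finset V) = K.P i
  · obtain ⟨v, hv, hr⟩ := ht
    rw [← h, mem_singleton] at hv
    subst hv
    exact ⟨K.r, mem_insert_self _ _, hr.symm⟩
  · obtain ⟨a, ha, b, hb, hba, hab⟩ := (hK.2.2.1 i).2 {f} (singleton_subset_iff.mpr hf)
      (singleton_nonempty f) h
    rw [mem_singleton] at ha hba
    subst ha
    exact ⟨b, mem_insert_of_mem (mem_erase.mpr ⟨hba, hb⟩), hab⟩

lemma mv_mv {k : ℕ} {K : St V ι} (hK : Good G k K) {i : ι} {f : V} (hf : f ∈ K.P i) :
    insert (mv K i f).r (((mv K i f).P i).erase K.r) = K.P i := by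
  rw [mv_P_self, mv_r, erase_insert (fun h => hK.1 i (mem_of_mem_erase h)), insert_erase hf]

lemma Step.good {k : ℕ} {J : Finset ι} {K K' : St V ι} (h : Step G J K K') (hK : Good G k K) :
    Good G k K' := by
  obtain ⟨i, _, f, hf, _, hc, rfl⟩ := h
  exact mv_good hK hf hc

lemma Step.symm' {k : ℕ} {J : Finset ι} {K K' : St V ι} (h : Step G J K K') (hK : Good G k K) :
    Step G J K' K := by
  obtain ⟨i, hi, f, hf, ht, hc, rfl⟩ := h
  refine ⟨i, hi, K.r, ?_, mv_touch hK hf ht, ?_, ?_⟩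
  · rw [mv_P_self]
    exact mem_insert_self _ _
  · rw [mv_mv hK hf]
    exact hK.2.2.1 i
  · cases K with
    | mk r P =>
      have h1 := mv_mv hK hf
      simp only [mv] at h1 ⊢
      congr 1
      rw [h1, Function.update_idem, Function.update_eq_self]

lemma Reach.good {k : ℕ} {J : Finset ι} {K K' : St V ι} (h : Reach G J K K') (hK : Good G k K) :
    Good G k K' := by
  induction h with
  | refl => exact hK
  | tail _ h ih => exact h.good ih

lemma Reach.symm' {k : ℕ} {J : Finset ι} {K K' : St V ι} (h : Reach G J K K')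
    (hK : Good G k K) : Reach G J K' K := by
  induction h with
  | refl => exact Relation.ReflTransGen.refl
  | tail h1 h ih =>
    exact Relation.ReflTransGen.head (h.symm' (Reach.good h1 hK)) ih

lemma Reach.refl' (J : Finset ι) (K : St V ι) : Reach G J K K := Relation.ReflTransGen.refl

lemma Reach.trans' {J : Finset ι} {K K' K'' : St V ι} (h : Reach G J K K') (h' : Reach G J K' K'') :
    Reach G J K K'' := Relation.ReflTransGen.trans h h'

lemma Reach.mono' {J J' : Finset ι} (hJ : J ⊆ J') {K K' : St V ι} (h : Reach G J K K') :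
    Reach G J' K K' := by
  induction h with
  | refl => exact Relation.ReflTransGen.refl
  | tail _ h ih =>
    obtain ⟨i, hi, h⟩ := h
    exact Relation.ReflTransGen.tail ih ⟨i, hJ hi, h⟩

lemma Reach.step {J : Finset ι} {K : St V ι} {i : ι} (hi : i ∈ J) {f : V} (hf : f ∈ K.P i)
    (ht : Touch G K i) (hc : Conn G (insert K.r ((K.P i).erase f))) : Reach G J K (mv K i f) :=
  Relation.ReflTransGen.single ⟨i, hi, f, hf, ht, hc, rfl⟩

lemma Reach.card_eq {k : ℕ} {J : Finset ι} {K K' : St V ι} (h : Reach G J K K')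
    (hK : Good G k K) (j : ι) : (K'.P j).card = (K.P j).card := by
  induction h with
  | refl => rfl
  | tail h1 h ih =>
    obtain ⟨i, _, f, hf, _, _, rfl⟩ := h
    rw [mv_card (Reach.good h1 hK) hf, ih]

lemma Reach.P_eq {J : Finset ι} {K K' : St V ι} (h : Reach G J K K') {j : ι} (hj : j ∉ J) :
    K'.P j = K.P j := by
  induction h with
  | refl => rfl
  | tail h1 h ih =>
    obtain ⟨i, hi, f, hf, _, _, rfl⟩ := h
    rw [mv_P_ne _ _ (fun h : j = i => hj (h ▸ hi)), ih]

lemma mem_Un {A : Finset ι} {K : St V ι} {v : V} :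
    v ∈ Un A K ↔ v = K.r ∨ ∃ i ∈ A, v ∈ K.P i := by
  simp [Un]

lemma Un_mv {A : Finset ι} {K : St V ι} {i : ι} (hi : i ∈ A) {f : V} (hf : f ∈ K.P i) :
    Un A (mv K i f) = Un A K := by
  ext v
  rw [mem_Un, mem_Un, mv_r]
  constructor
  · rintro (rfl | ⟨j, hj, hv⟩)
    · exact Or.inr ⟨i, hi, hf⟩
    · by_cases h : j = i
      · subst h
        rw [mv_P_self] at hv
        rcases mem_insert.mp hv with h | h
        · exact Or.inl h
        · exact Or.inr ⟨j, hj, mem_of_mem_erase h⟩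
      · rw [mv_P_ne _ _ h] at hv
        exact Or.inr ⟨j, hj, hv⟩
  · rintro (rfl | ⟨j, hj, hv⟩)
    · refine Or.inr ⟨i, hi, ?_⟩
      rw [mv_P_self]
      exact mem_insert_self _ _
    · by_cases h : j = i
      · subst h
        by_cases hvf : v = f
        · exact Or.inl hvf
        · refine Or.inr ⟨j, hj, ?_⟩
          rw [mv_P_self]
          exact mem_insert_of_mem (mem_erase.mpr ⟨hvf, hv⟩)
      · refine Or.inr ⟨j, hj, ?_⟩
        rw [mv_P_ne _ _ h]
        exact hv

lemma Reach.Un_eq {J A : Finset ι} (hJ : J ⊆ A) {K K' : St V ι} (h : Reach G J K K') :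
    Un A K' = Un A K := by
  induction h with
  | refl => rfl
  | tail h1 h ih =>
    obtain ⟨i, hi, f, hf, _, _, rfl⟩ := h
    rw [Un_mv (hJ hi) hf, ih]

variable (G)

open Classical in
/-- the parts of `J` that are ever touched by the token -/
noncomputable def Tch (J : Finset ι) (K : St V ι) : Finset ι :=
  J.filter (fun i => ∃ K', Reach G J K K' ∧ Touch G K' i)

/-- possible token positions -/
def Tok (J : Finset ι) (K : St V ι) (v : V) : Prop := ∃ K', Reach G J K K' ∧ K'.r = v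

variable {G}

lemma mem_Tch {J : Finset ι} {K : St V ι} {i : ι} :
    i ∈ Tch G J K ↔ i ∈ J ∧ ∃ K', Reach G J K K' ∧ Touch G K' i := by
  classical
  simp [Tch]

lemma Tch_subset {J : Finset ι} {K : St V ι} : Tch G J K ⊆ J := fun _ h => (mem_Tch.mp h).1

lemma Reach.toTch {J : Finset ι} {K K' : St V ι} (h : Reach G J K K') :
    Reach G (Tch G J K) K K' := by
  induction h with
  | refl => exact Relation.ReflTransGen.refl
  | tail h1 h ih =>
    obtain ⟨i, hi, f, hf, ht, h⟩ := h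
    exact Relation.ReflTransGen.tail ih ⟨i, mem_Tch.mpr ⟨hi, _, h1, ht⟩, f, hf, ht, h⟩

lemma Reach.Tch_eq {k : ℕ} {J : Finset ι} {K K' : St V ι} (h : Reach G J K K')
    (hK : Good G k K) : Tch G J K' = Tch G J K := by
  ext i
  rw [mem_Tch, mem_Tch]
  constructor
  · rintro ⟨hi, K'', h1, h2⟩
    exact ⟨hi, K'', h.trans' h1, h2⟩
  · rintro ⟨hi, K'', h1, h2⟩
    exact ⟨hi, K'', (h.symm' hK).trans' h1, h2⟩

lemma Tok.mem_Un {J : Finset ι} {K : St V ι} {v : V} (h : Tok G J K v) :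
    v ∈ Un (Tch G J K) K := by
  obtain ⟨K', h1, rfl⟩ := h
  rw [← h1.toTch.Un_eq (Subset.refl _)]
  exact mem_insert_self _ _

lemma Tok.not_adj {J : Finset ι} {K : St V ι} {v : V} (h : Tok G J K v) {j : ι} (hj : j ∈ J)
    (hjT : j ∉ Tch G J K) {w : V} (hw : w ∈ K.P j) : ¬ G.Adj v w := by
  obtain ⟨K', h1, rfl⟩ := h
  intro hadj
  apply hjT
  refine mem_Tch.mpr ⟨hj, K', h1, w, ?_, hadj⟩
  rw [h1.toTch.P_eq hjT]
  exact hw

variable (G)

/-- the conclusion of the main lemma -/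
def Concl (k : ℕ) (J : Finset ι) (K : St V ι) : Prop :=
  ∃ (I : Finset V) (c : ℕ), 0 < c ∧ (∀ v ∈ I, Tok G J K v) ∧ Cells G I c ∧
    (Un (Tch G J K) K \ I).card + k ≤ k * c

/-- partial structure on the claimed parts `A` -/
def Pre (k : ℕ) (J A : Finset ι) (K : St V ι) (I : Finset V) (c : ℕ) : Prop :=
  0 < c ∧ (∀ v ∈ I, Tok G J K v) ∧ Cells G I c ∧ I ⊆ Un A K ∧ (Un A K \ I).card + k ≤ k * c

variable {G}

lemma Concl.of_reach {k : ℕ} {J : Finset ι} {K K' : St V ι} (h : Reach G J K K')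
    (hK : Good G (k + 1) K) (hc : Concl G k J K') : Concl G k J K := by
  obtain ⟨I, c, h0, h1, h2, h3⟩ := hc
  refine ⟨I, c, h0, fun v hv => ?_, h2, ?_⟩
  · obtain ⟨K'', h4, h5⟩ := h1 v hv
    exact ⟨K'', h.trans' h4, h5⟩
  · rw [h.Tch_eq hK, h.toTch.Un_eq (Subset.refl _)] at h3
    exact h3

/-- one extension step -/
lemma pre_step {k : ℕ} {J : Finset ι}
    (ih : ∀ J' : Finset ι, J' ⊂ J → ∀ K : St V ι, Good G (k + 1) K → Concl G k J' K)
    {A : Finset ι} (hA : A ⊆ J) {K : St V ι} (hK : Good G (k + 1) K) {I : Finset V} {c : ℕ}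
    (hP : Pre G k J A K I c) {j : ι} (hj : j ∈ J) (hjA : j ∉ A) {x : V} (hx : x ∈ K.P j)
    (ht : Touch G K j) (hc : Conn G (insert K.r ((K.P j).erase x)))
    (hx' : ∀ v ∈ I, ¬ G.Adj v x)
    (hcl : ∀ v ∈ I, ∀ i ∈ J, i ∉ A → i ≠ j → ∀ w ∈ K.P i, ¬ G.Adj v w) :
    ∃ (A' : Finset ι) (I' : Finset V) (c' : ℕ), A ⊂ A' ∧ A' ⊆ J ∧
      Pre G k J A' (mv K j x) I' c' ∧
      ∀ v ∈ I', ∀ i ∈ J, i ∉ A' → ∀ w ∈ (mv K j x).P i, ¬ G.Adj v w := by
  obtain ⟨h0, h1, h2, h3, h4⟩ := hP
  have hK3 : Good G (k + 1) (mv K j x) := mv_good hK hx hc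
  have hr : Reach G J K (mv K j x) := Reach.step hj hx ht hc
  set K3 := mv K j x with hK3def
  set J3 := (J \ A).erase j with hJ3
  have hJ3J : J3 ⊆ J := (erase_subset _ _).trans sdiff_subset
  have hJ3s : J3 ⊂ J := ⟨hJ3J, fun h => (notMem_erase j _) (h hj)⟩
  obtain ⟨I3, c3, g0, g1, g2, g3⟩ := ih J3 hJ3s K3 hK3
  set T3 := Tch G J3 K3 with hT3
  have hT3s : T3 ⊆ J3 := Tch_subset
  have memJ3 : ∀ i, i ∈ J3 ↔ i ≠ j ∧ i ∈ J ∧ i ∉ A := by
    intro i
    rw [hJ3, mem_erase, mem_sdiff]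
  -- vertices of the new region
  have hZ3 : ∀ w ∈ Un T3 K3, w = x ∨ ∃ i ∈ J, i ∉ A ∧ i ≠ j ∧ w ∈ K.P i := by
    intro w hw
    rcases mem_Un.mp hw with h | ⟨i, hi, h⟩
    · exact Or.inl h
    · obtain ⟨a, b, d⟩ := (memJ3 i).mp (hT3s hi)
      rw [hK3def, mv_P_ne _ _ a] at h
      exact Or.inr ⟨i, b, d, a, h⟩
  have hI3 : I3 ⊆ Un T3 K3 := fun v hv => (g1 v hv).mem_Un
  have hdis : Disjoint (Un A K) (Un T3 K3) := by
    rw [disjoint_left]
    intro w hw hw3
    rcases mem_Un.mp hw with h | ⟨i, hi, h⟩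
    · rcases hZ3 w hw3 with h' | ⟨i, _, _, _, h'⟩
      · exact hK.1 j (h ▸ h' ▸ hx)
      · exact hK.1 i (h ▸ h')
    · rcases hZ3 w hw3 with h' | ⟨i', _, hi', _, h'⟩
      · exact disjoint_left.mp (hK.2.1 i j (fun e => hjA (e ▸ hi))) h (h' ▸ hx)
      · exact disjoint_left.mp (hK.2.1 i i' (fun e => hi' (e ▸ hi))) h h'
  have hUn : Un (insert j A ∪ T3) K3 ⊆ Un A K ∪ (K.P j).erase x ∪ Un T3 K3 := by
    intro w hw
    rcases mem_Un.mp hw with h | ⟨i, hi, h⟩
    · exact mem_union_right _ (mem_Un.mpr (Or.inl h))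
    · rcases mem_union.mp hi with hi | hi
      · rcases mem_insert.mp hi with rfl | hi
        · rw [hK3def, mv_P_self] at h
          rcases mem_insert.mp h with h | h
          · exact mem_union_left _ (mem_union_left _ (mem_Un.mpr (Or.inl h)))
          · exact mem_union_left _ (mem_union_right _ h)
        · rw [hK3def, mv_P_ne _ _ (fun e : i = j => hjA (e ▸ hi))] at h
          exact mem_union_left _ (mem_union_left _ (mem_Un.mpr (Or.inr ⟨i, hi, h⟩)))
      · exact mem_union_right _ (mem_Un.mpr (Or.inr ⟨i, hi, h⟩))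
  refine ⟨insert j A ∪ T3, I ∪ I3, c + c3,
    ⟨(subset_insert _ _).trans subset_union_left,
      fun h => hjA (h (mem_union_left _ (mem_insert_self _ _)))⟩,
    union_subset (insert_subset hj hA) (hT3s.trans hJ3J), ⟨by omega, ?_, ?_, ?_, ?_⟩, ?_⟩
  · intro v hv
    rcases mem_union.mp hv with hv | hv
    · obtain ⟨K', a, b⟩ := h1 v hv
      exact ⟨K', (hr.symm' hK).trans' a, b⟩
    · obtain ⟨K', a, b⟩ := g1 v hv
      exact ⟨K', a.mono' hJ3J, b⟩
  · refine h2.union g2 (hdis.mono h3 hI3) fun v hv w hw => ?_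
    rcases hZ3 w (hI3 hw) with h | ⟨i, a, b, d, h⟩
    · exact h ▸ hx' v hv
    · exact hcl v hv i a b d w h
  · refine union_subset (h3.trans fun w hw => ?_) (hI3.trans fun w hw => ?_)
    · rcases mem_Un.mp hw with h | ⟨i, hi, h⟩
      · refine mem_Un.mpr (Or.inr ⟨j, mem_union_left _ (mem_insert_self _ _), ?_⟩)
        rw [hK3def, mv_P_self, h]
        exact mem_insert_self _ _
      · refine mem_Un.mpr (Or.inr ⟨i, mem_union_left _ (mem_insert_of_mem hi), ?_⟩)
        rw [hK3def, mv_P_ne _ _ (fun e : i = j => hjA (e ▸ hi))]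
        exact h
    · rcases mem_Un.mp hw with h | ⟨i, hi, h⟩
      · exact mem_Un.mpr (Or.inl h)
      · exact mem_Un.mpr (Or.inr ⟨i, mem_union_right _ hi, h⟩)
  · have hsub : Un (insert j A ∪ T3) K3 \ (I ∪ I3) ⊆
        (Un A K \ I) ∪ (K.P j).erase x ∪ (Un T3 K3 \ I3) := by
      intro w hw
      obtain ⟨a, b⟩ := mem_sdiff.mp hw
      rcases mem_union.mp (hUn a) with h | h
      · rcases mem_union.mp h with h | h
        · exact mem_union_left _ (mem_union_left _
            (mem_sdiff.mpr ⟨h, fun h' => b (mem_union_left _ h')⟩))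
        · exact mem_union_left _ (mem_union_right _ h)
      · exact mem_union_right _ (mem_sdiff.mpr ⟨h, fun h' => b (mem_union_right _ h')⟩)
    have e1 := card_le_card hsub
    have e2 := card_union_le ((Un A K \ I) ∪ (K.P j).erase x) (Un T3 K3 \ I3)
    have e3 := card_union_le (Un A K \ I) ((K.P j).erase x)
    have e4 := card_erase_of_mem hx
    have e5 := hK.2.2.2 j
    rw [mul_add]
    omega
  · intro v hv i hi hiA w hw
    have hij : i ≠ j := fun e => hiA (mem_union_left _ (e ▸ mem_insert_self _ _))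
    have hiA' : i ∉ A := fun e => hiA (mem_union_left _ (mem_insert_of_mem e))
    rcases mem_union.mp hv with hv | hv
    · rw [hK3def, mv_P_ne _ _ hij] at hw
      exact hcl v hv i hi hiA' hij w hw
    · exact (g1 v hv).not_adj ((memJ3 i).mpr ⟨hij, hi, hiA'⟩)
        (fun e => hiA (mem_union_right _ e)) hw

lemma Pre.of_reach {k : ℕ} {J A : Finset ι} (hA : A ⊆ J) {K K' : St V ι} (h : Reach G A K K')
    (hK : Good G (k + 1) K) {I : Finset V} {c : ℕ} (hP : Pre G k J A K I c) :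
    Pre G k J A K' I c := by
  obtain ⟨h0, h1, h2, h3, h4⟩ := hP
  have e := h.Un_eq (Subset.refl _)
  refine ⟨h0, fun v hv => ?_, h2, e ▸ h3, e ▸ h4⟩
  obtain ⟨K'', a, b⟩ := h1 v hv
  exact ⟨K'', ((h.mono' hA).symm' hK).trans' a, b⟩

lemma pre_concl {k : ℕ} {J : Finset ι}
    (ih : ∀ J' : Finset ι, J' ⊂ J → ∀ K : St V ι, Good G (k + 1) K → Concl G k J' K) :
    ∀ (n : ℕ) (A : Finset ι), A ⊆ J → (J \ A).card = n → ∀ (K : St V ι), Good G (k + 1) K →
      ∀ (I : Finset V) (c : ℕ), Pre G k J A K I c →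
      (∀ v ∈ I, ∀ i ∈ J, i ∉ A → ∀ w ∈ K.P i, ¬ G.Adj v w) → Concl G k J K := by
  intro n
  induction n using Nat.strong_induction_on with
  | _ n ihn =>
    intro A hA hn K hK I c hP hcl
    by_cases hex : ∃ K', Reach G A K K' ∧ ∃ j ∈ J, j ∉ A ∧ Touch G K' j
    · obtain ⟨K', hr, j, hj, hjA, ht⟩ := hex
      have hK' := hr.good hK
      have hP' := hP.of_reach hA hr hK
      have hcl' : ∀ v ∈ I, ∀ i ∈ J, i ∉ A → ∀ w ∈ K'.P i, ¬ G.Adj v w := by
        intro v hv i hi hiA w hw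
        rw [hr.P_eq hiA] at hw
        exact hcl v hv i hi hiA w hw
      have hx : ∃ x ∈ K'.P j, Conn G (insert K'.r ((K'.P j).erase x)) := by
        obtain ⟨v, hv, hadj⟩ := ht
        by_cases h : ({v} : Finset V) = K'.P j
        · refine ⟨v, hv, ?_⟩
          rw [← h, erase_singleton]
          exact Conn.single _
        · obtain ⟨x, hx, hxv, hc⟩ := (hK'.2.2.1 j).grow (Conn.single v)
            (singleton_subset_iff.mpr hv) h
          rw [mem_singleton] at hxv
          exact ⟨x, hx, hc.insert (mem_erase.mpr ⟨Ne.symm hxv, hv⟩) hadj⟩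
      obtain ⟨x, hx, hc⟩ := hx
      obtain ⟨A', I', c', a1, a2, a3, a4⟩ := pre_step ih hA hK' hP' hj hjA hx ht hc
        (fun v hv => hcl' v hv j hj hjA x hx) (fun v hv i hi hiA _ => hcl' v hv i hi hiA)
      have hlt : (J \ A').card < n := by
        rw [← hn]
        apply card_lt_card
        obtain ⟨y, hy, hyA⟩ := exists_of_ssubset a1
        refine ⟨sdiff_subset_sdiff (Subset.refl _) a1.1, fun h => ?_⟩
        exact (mem_sdiff.mp (h (mem_sdiff.mpr ⟨a2 hy, hyA⟩))).2 hy
      have := ihn _ hlt A' a2 rfl _ (mv_good hK' hx hc) I' c' a3 a4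
      exact Concl.of_reach ((hr.mono' hA).trans' (Reach.step hj hx ht hc)) hK this
    · have hall : ∀ K', Reach G J K K' → Reach G A K K' := by
        intro K' h
        induction h with
        | refl => exact Relation.ReflTransGen.refl
        | tail h1 h ih' =>
          obtain ⟨i, hi, f, hf, ht, h⟩ := h
          have hiA : i ∈ A := by
            by_contra hiA
            exact hex ⟨_, ih', i, hi, hiA, ht⟩
          exact Relation.ReflTransGen.tail ih' ⟨i, hiA, f, hf, ht, h⟩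
      have hT : Tch G J K ⊆ A := by
        intro i hi
        obtain ⟨hiJ, K', h1, h2⟩ := mem_Tch.mp hi
        by_contra hiA
        exact hex ⟨K', hall K' h1, i, hiJ, hiA, h2⟩
      obtain ⟨h0, h1, h2, h3, h4⟩ := hP
      refine ⟨I, c, h0, h1, h2, le_trans ?_ h4⟩
      refine Nat.add_le_add_right (card_le_card (sdiff_subset_sdiff ?_ (Subset.refl _))) _
      intro w hw
      rcases mem_Un.mp hw with h | ⟨i, hi, h⟩
      · exact mem_Un.mpr (Or.inl h)
      · exact mem_Un.mpr (Or.inr ⟨i, hT hi, h⟩)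

end Pool.Agent.Lib.MP_f20cd2_co.H83
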