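import Pool.Agent.Lib.MP_f20cd2_co.Graph

set_option autoImplicit false

namespace Pool.Agent.Lib.MP_f20cd2_co

open Finset

section
variable {x m b k : ℕ} (f : V x m b → Fin k)

/-- part `j` has no universal vertex -/
def NX (j : Fin k) : Prop := ∀ y, f (Sum.inl y) ≠ j

def sing (j : Fin k) : ℕ := (univ.filter fun z : Fin m × Fin 6 => f (sg z.1 z.2) = j).card

def blobs (j : Fin k) (i : Fin m) : ℕ :=
  (univ.filter fun z : Bool × Fin b => f (bl i z.1 z.2) = j).card

lemma part_card (j : Fin k) (hj : NX f j) :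
    (f ⁻¹' {j}).ncard = sing f j + ∑ i, blobs f j i := by
  have h1 : (f ⁻¹' {j}) = ↑(univ.filter fun v => f v = j) := by
    ext v; simp
  rw [h1, Set.ncard_coe_finset]
  unfold sing blobs
  simp only [card_filter, Fintype.sum_sum_type, Fintype.sum_prod_type, sum_add_distrib]
  have h2 : ∑ y : Fin x, (if f (Sum.inl y) = j then 1 else 0) = 0 :=
    sum_eq_zero fun y _ => if_neg (hj y)
  rw [h2, zero_add]

lemma sum_sing : ∑ j, sing f j = 6 * m := by
  unfold sing
  rw [← card_eq_sum_card_fiberwise (s := univ) (t := univ)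
    (f := fun z : Fin m × Fin 6 => f (sg z.1 z.2)) (fun _ _ => mem_coe.2 (mem_univ _))]
  simp [mul_comm]

lemma sum_blobs (i : Fin m) : ∑ j, blobs f j i = 2 * b := by
  unfold blobs
  rw [← card_eq_sum_card_fiberwise (s := univ) (t := univ)
    (f := fun z : Bool × Fin b => f (bl i z.1 z.2)) (fun _ _ => mem_coe.2 (mem_univ _))]
  simp

lemma blobs_pos {j : Fin k} {i : Fin m} (h : 0 < blobs f j i) :
    ∃ σ c, f (bl i σ c) = j := by
  obtain ⟨z, hz⟩ := card_pos.1 h
  exact ⟨z.1, z.2, (mem_filter.1 hz).2⟩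

lemma blobs_both {j : Fin k} {i : Fin m} (h : b < blobs f j i) (σ : Bool) :
    ∃ c, f (bl i σ c) = j := by
  by_contra hc
  push Not at hc
  have h1 : (univ.filter fun z : Bool × Fin b => f (bl i z.1 z.2) = j) ⊆
      univ.image fun c : Fin b => (!σ, c) := by
    intro z hz
    obtain ⟨τ, c⟩ := z
    have h2 := (mem_filter.1 hz).2
    have h3 : τ = !σ := by
      by_contra h4
      have : τ = σ := by cases τ <;> cases σ <;> simp_all
      exact hc c (this ▸ h2)
    exact mem_image.2 ⟨c, mem_univ _, by rw [h3]⟩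
  have h2 := (card_le_card h1).trans card_image_le
  simp only [card_univ, Fintype.card_fin] at h2
  unfold blobs at h
  omega

/-- vertices of gadget `i` whose class lies in `C` -/
def zone (i : Fin m) (C : Finset (Fin 8)) : Set (V x m b) :=
  {v | ∃ w, v = Sum.inr (i, w) ∧ cls w ∈ C}

lemma mem_zone (i : Fin m) (C : Finset (Fin 8)) (i' : Fin m) (w : W b) :
    (Sum.inr (i', w) : V x m b) ∈ zone i C ↔ i' = i ∧ cls w ∈ C := by
  constructor
  · rintro ⟨w', h1, h2⟩
    simp only [Sum.inr.injEq, Prod.mk.injEq] at h1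
    exact ⟨h1.1, h1.2 ▸ h2⟩
  · rintro ⟨rfl, h2⟩
    exact ⟨w, rfl, h2⟩

lemma exit_zone {j : Fin k} (hj : NX f j) (hc : ((G x m b).induce (f ⁻¹' {j})).Connected)
    (i : Fin m) (C : Finset (Fin 8)) (a z : V x m b) (ha : f a = j) (hz : f z = j)
    (haC : a ∈ zone i C) (hzC : z ∉ zone i C) :
    (∃ w, f (Sum.inr (i, w)) = j ∧ cls w ∈ C ∧ (cls w).val ≤ 1) ∨
    (∃ w w', f (Sum.inr (i, w)) = j ∧ f (Sum.inr (i, w')) = j ∧ cls w ∈ C ∧ cls w' ∉ C ∧
      R (cls w) (cls w') = true) := by
  obtain ⟨u, v, hu, hv, huC, hvC, hadj⟩ := exit_edge _ _ hc (zone i C) a z ha hz haC hzC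
  obtain ⟨w, rfl, hw⟩ := huC
  rcases v with y | ⟨i', w'⟩
  · exact absurd hv (hj y)
  · rcases hadj.2 with ⟨h1, h2⟩ | ⟨h1, _⟩
    · subst h1
      refine Or.inr ⟨w, w', hu, hv, hw, fun h => hvC ((mem_zone _ _ _ _).2 ⟨rfl, h⟩), h2⟩
    · exact Or.inl ⟨w, hu, hw, h1⟩

lemma eq_sg {i : Fin m} {j : Fin k} {w : W b} (h : f (Sum.inr (i, w)) = j) (s : Fin 6)
    (hs : (cls w).val = s.val) : f (sg i s) = j := by
  rw [cls_eq_small w s hs] at h
  exact h

/-- a part that meets a clique of gadget `i` and a clique of another gadget holds a terminal -/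
lemma glob_term {j : Fin k} (hj : NX f j) (hc : ((G x m b).induce (f ⁻¹' {j})).Connected)
    {i i' : Fin m} (hne : i' ≠ i) (h1 : 0 < blobs f j i) (h2 : 0 < blobs f j i') :
    f (sg i 0) = j ∨ f (sg i 1) = j := by
  obtain ⟨σ, c, h3⟩ := blobs_pos f h1
  obtain ⟨σ', c', h4⟩ := blobs_pos f h2
  rcases exit_zone f hj hc i univ _ _ h3 h4 ((mem_zone _ _ _ _).2 ⟨rfl, mem_univ _⟩)
    (fun h => hne ((mem_zone _ _ _ _).1 h).1) with ⟨w, hw, _, h5⟩ | ⟨w, w', _, _, _, h5, _⟩
  · have : (cls w).val = 0 ∨ (cls w).val = 1 := by omega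
    rcases this with h6 | h6
    · exact Or.inl (eq_sg f hw 0 h6)
    · exact Or.inr (eq_sg f hw 1 h6)
  · exact absurd (mem_univ _) h5

lemma RA : ∀ a c : Fin 8, a ∈ ({2, 3, 6} : Finset (Fin 8)) → c ∉ ({2, 3, 6} : Finset (Fin 8)) →
    R a c = true → c.val = 0 ∨ c.val = 1 ∨ (a.val = 2 ∧ c.val = 4) ∨ (a.val = 3 ∧ c.val = 5) := by
  decide

lemma RB : ∀ a c : Fin 8, a ∈ ({3, 5, 6, 7} : Finset (Fin 8)) →
    c ∉ ({3, 5, 6, 7} : Finset (Fin 8)) →
    R a c = true → c.val = 1 ∨ c.val = 2 ∨ c.val = 4 := by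
  decide

lemma RC : ∀ a c : Fin 8, a ∈ ({2, 4, 6, 7} : Finset (Fin 8)) →
    c ∉ ({2, 4, 6, 7} : Finset (Fin 8)) →
    R a c = true → c.val = 0 ∨ c.val = 3 ∨ c.val = 5 := by
  decide

lemma cls_bl (σ : Bool) (c : Fin b) : cls (Sum.inr (σ, c) : W b) = 6 ∨
    cls (Sum.inr (σ, c) : W b) = 7 := by
  cases σ
  · exact Or.inl rfl
  · exact Or.inr rfl

/-- the key local obstruction -/
lemma no_three {j j0 j1 : Fin k} {i : Fin m}
    (hj : NX f j) (hc : ((G x m b).induce (f ⁻¹' {j})).Connected)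
    (hj0 : NX f j0) (hc0 : ((G x m b).induce (f ⁻¹' {j0})).Connected)
    (hj1 : NX f j1) (hc1 : ((G x m b).induce (f ⁻¹' {j1})).Connected)
    (hb : b < blobs f j i) (hb0 : 0 < blobs f j0 i) (hb1 : 0 < blobs f j1 i)
    (e0 : f (sg i 0) = j0) (e1 : f (sg i 1) = j1) (n0 : j ≠ j0) (n1 : j ≠ j1) (n01 : j0 ≠ j1) :
    False := by
  obtain ⟨c, h3⟩ := blobs_both f hb false
  obtain ⟨c', h4⟩ := blobs_both f hb true
  rcases exit_zone f hj hc i {2, 3, 6} _ _ h3 h4 ((mem_zone _ _ _ _).2 ⟨rfl, by simp [cls]⟩)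
    (fun h => absurd ((mem_zone _ _ _ _).1 h).2 (by simp [cls])) with
      ⟨w, hw, h5, h6⟩ | ⟨w, w', hw, hw', h5, h6, h7⟩
  · revert h5 h6
    generalize cls w = a
    revert a
    decide
  · rcases RA _ _ h5 h6 h7 with h8 | h8 | ⟨h8, h9⟩ | ⟨h8, h9⟩
    · exact n0 ((eq_sg f hw' 0 h8).symm.trans e0)
    · exact n1 ((eq_sg f hw' 1 h8).symm.trans e1)
    · have g2 := eq_sg f hw 2 h8
      have g4 := eq_sg f hw' 4 h9
      obtain ⟨σ, d, h10⟩ := blobs_pos f hb0
      rcases exit_zone f hj0 hc0 i {3, 5, 6, 7} _ _ h10 e0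
        ((mem_zone _ _ _ _).2 ⟨rfl, by rcases cls_bl σ d with h | h <;> rw [h] <;> decide⟩)
        (fun h => absurd ((mem_zone _ _ _ _).1 h).2 (by simp [cls])) with
          ⟨u, hu, k5, k6⟩ | ⟨u, u', hu, hu', k5, k6, k7⟩
      · revert k5 k6
        generalize cls u = a
        revert a
        decide
      · rcases RB _ _ k5 k6 k7 with k8 | k8 | k8
        · exact n01 ((eq_sg f hu' 1 k8).symm.trans e1)
        · exact n0 (g2.symm.trans (eq_sg f hu' 2 k8))
        · exact n0 (g4.symm.trans (eq_sg f hu' 4 k8))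
    · have g3 := eq_sg f hw 3 h8
      have g5 := eq_sg f hw' 5 h9
      obtain ⟨σ, d, h10⟩ := blobs_pos f hb1
      rcases exit_zone f hj1 hc1 i {2, 4, 6, 7} _ _ h10 e1
        ((mem_zone _ _ _ _).2 ⟨rfl, by rcases cls_bl σ d with h | h <;> rw [h] <;> decide⟩)
        (fun h => absurd ((mem_zone _ _ _ _).1 h).2 (by simp [cls])) with
          ⟨u, hu, k5, k6⟩ | ⟨u, u', hu, hu', k5, k6, k7⟩
      · revert k5 k6
        generalize cls u = a
        revert a
        decide
      · rcases RC _ _ k5 k6 k7 with k8 | k8 | k8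
        · exact n01 (e0.symm.trans (eq_sg f hu' 0 k8))
        · exact n1 (g3.symm.trans (eq_sg f hu' 3 k8))
        · exact n1 (g5.symm.trans (eq_sg f hu' 5 k8))

end

theorem nonAP_core {x m b k p D : ℕ} (hp : p = b + D) (f : V x m b → Fin k)
    (hf : ∀ j, (f ⁻¹' {j}).ncard = p ∧ ((G x m b).induce (f ⁻¹' {j})).Connected) :
    ∃ N r : ℕ, k ≤ x + N + r ∧ r * D ≤ 6 * m ∧ 2 * N ≤ 3 * m := by
  classical
  let good : Finset (Fin k) := univ.filter fun j => NX f j ∧ sing f j < D
  let rich : Finset (Fin k) := univ.filter fun j => D ≤ sing f j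
  refine ⟨good.card, rich.card, ?_, ?_, ?_⟩
  · have h1 : (univ : Finset (Fin k)) ⊆
        (univ.image fun y : Fin x => f (Sum.inl y)) ∪ good ∪ rich := by
      intro j _
      simp only [good, rich, mem_union, mem_image, mem_univ, true_and, mem_filter]
      by_cases h : NX f j
      · by_cases h' : sing f j < D
        · exact Or.inl (Or.inr ⟨h, h'⟩)
        · exact Or.inr (by omega)
      · unfold NX at h
        push Not at h
        exact Or.inl (Or.inl h)
    have h2 := (card_le_card h1).trans ((card_union_le _ _).trans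
      (Nat.add_le_add_right (card_union_le _ _) _))
    have h3 : (univ.image fun y : Fin x => f (Sum.inl y)).card ≤ x := by
      simpa using card_image_le (s := univ) (f := fun y : Fin x => f (Sum.inl y))
    simp only [card_univ, Fintype.card_fin] at h2
    omega
  · rw [← sum_sing f]
    calc rich.card * D = ∑ _j ∈ rich, D := by simp
      _ ≤ ∑ j ∈ rich, sing f j := sum_le_sum fun j hj => (mem_filter.1 hj).2
      _ ≤ ∑ j, sing f j := sum_le_sum_of_subset (subset_univ _)
  · have hbl : ∀ j ∈ good, b < ∑ i, blobs f j i := by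
      intro j hj
      obtain ⟨h1, h2⟩ := (mem_filter.1 hj).2
      have := part_card f j h1
      rw [(hf j).1] at this
      omega
    let loc : Fin k → Fin m → Prop := fun j i => ∀ i', i' ≠ i → blobs f j i' = 0
    have hloc : ∀ j ∈ good, ∀ i, loc j i → b < blobs f j i := by
      intro j hj i hl
      have := hbl j hj
      rwa [sum_eq_single i (fun i' _ h => hl i' h) (fun h => absurd (mem_univ _) h)] at this
    let L : Fin m → Finset (Fin k) := fun i => good.filter fun j => loc j i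
    let Gl : Fin m → Finset (Fin k) := fun i => good.filter fun j => ¬ loc j i ∧ 0 < blobs f j i
    have hA : 2 * good.card ≤ ∑ i, (2 * (L i).card + (Gl i).card) := by
      have e : ∑ i, (2 * (L i).card + (Gl i).card) = ∑ j ∈ good, ∑ i,
          (2 * (if loc j i then 1 else 0) + (if ¬ loc j i ∧ 0 < blobs f j i then 1 else 0)) := by
        rw [sum_comm]
        refine sum_congr rfl fun i _ => ?_
        simp only [L, Gl, card_filter, sum_add_distrib, mul_sum]
      rw [e]
      calc 2 * good.card = ∑ _j ∈ good, 2 := by simp [mul_comm]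
        _ ≤ _ := sum_le_sum fun j hj => ?_
      by_cases hl : ∃ i, loc j i
      · obtain ⟨i, hi⟩ := hl
        refine le_trans ?_ (single_le_sum (f := fun i => (2 * (if loc j i then 1 else 0) +
          (if ¬ loc j i ∧ 0 < blobs f j i then 1 else 0))) (fun _ _ => Nat.zero_le _) (mem_univ i))
        simp [hi]
      · push Not at hl
        have h1 : ∃ i, 0 < blobs f j i := by
          by_contra h2
          push Not at h2
          have := hbl j hj
          rw [sum_eq_zero fun i _ => Nat.le_zero.1 (h2 i)] at this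
          omega
        obtain ⟨i, hi⟩ := h1
        have h2 := hl i
        simp only [loc] at h2
        push Not at h2
        obtain ⟨i', hne, hi'⟩ := h2
        refine le_trans ?_ (sum_le_sum_of_subset (subset_univ {i, i'}))
        rw [sum_pair hne.symm]
        simp [hl i, hl i', hi, Nat.pos_of_ne_zero hi']
    have hB : ∀ i, 2 * (L i).card + (Gl i).card ≤ 3 := by
      intro i
      have hG : Gl i ⊆ {f (sg i 0), f (sg i 1)} := by
        intro j hj
        obtain ⟨h1, h2, h3⟩ := mem_filter.1 hj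
        simp only [loc] at h2
        push Not at h2
        obtain ⟨i', hne, hi'⟩ := h2
        rcases glob_term f (mem_filter.1 h1).2.1 (hf j).2 hne h3 (Nat.pos_of_ne_zero hi') with
          h | h
        · simp [h]
        · simp [h]
      have hG2 : (Gl i).card ≤ 2 := (card_le_card hG).trans card_le_two
      have hL : (L i).card ≤ 1 := by
        rw [card_le_one]
        intro j hj j' hj'
        by_contra hne
        have h1 := hloc j (mem_filter.1 hj).1 i (mem_filter.1 hj).2
        have h2 := hloc j' (mem_filter.1 hj').1 i (mem_filter.1 hj').2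
        have h3 := sum_blobs f i
        have h4 := sum_le_sum_of_subset (f := fun j => blobs f j i) (subset_univ {j, j'})
        rw [sum_pair hne] at h4
        omega
      by_contra hcon
      have h1 : (L i).card = 1 := by omega
      have h2 : (Gl i).card = 2 := by omega
      obtain ⟨j, hj⟩ := card_pos.1 (by omega : 0 < (L i).card)
      have h3 : Gl i = {f (sg i 0), f (sg i 1)} :=
        eq_of_subset_of_card_le hG (by rw [h2]; exact card_le_two)
      have h4 : f (sg i 0) ≠ f (sg i 1) := by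
        intro h
        rw [h3, h] at h2
        simp at h2
      have m0 : f (sg i 0) ∈ Gl i := by rw [h3]; simp
      have m1 : f (sg i 1) ∈ Gl i := by rw [h3]; simp
      obtain ⟨a0, a1, a2⟩ := mem_filter.1 m0
      obtain ⟨b0, b1, b2⟩ := mem_filter.1 m1
      obtain ⟨c0, c1⟩ := mem_filter.1 hj
      refine no_three f (mem_filter.1 c0).2.1 (hf _).2 (mem_filter.1 a0).2.1 (hf _).2
        (mem_filter.1 b0).2.1 (hf _).2 (hloc j c0 i c1) a2 b2 rfl rfl ?_ ?_ h4
      · intro h; exact a1 (h ▸ c1)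
      · intro h; exact b1 (h ▸ c1)
    calc 2 * good.card ≤ ∑ i, (2 * (L i).card + (Gl i).card) := hA
      _ ≤ ∑ _i : Fin m, 3 := sum_le_sum fun i _ => hB i
      _ = 3 * m := by simp [mul_comm]

end Pool.Agent.Lib.MP_f20cd2_co
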