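import Pool.Agent.Lib.MP_f20cd2_co.Graph

set_option autoImplicit false

namespace Pool.Agent.Lib.MP_f20cd2_co

open Finset

/-- the terminals of the gadgets -/
def IsT {x m b : ℕ} : V x m b → Prop
  | Sum.inl _ => False
  | Sum.inr (_, w) => (cls w).val ≤ 1

def c6 (s : Fin 6) : Fin 8 := ⟨s.val, by omega⟩

def side (a : Fin 8) : Bool := a ∈ ({4, 5, 7} : Finset (Fin 8))

lemma R_of_side : ∀ a c : Fin 8, ¬ a.val ≤ 1 → ¬ c.val ≤ 1 → side a = side c → R a c = true := by
  decide

lemma reach_of_rel {x m b : ℕ} (S : Set (V x m b)) (u v : ↥Sᶜ) (h : rel u.val v.val) :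
    ((G x m b).induce Sᶜ).Reachable u v := by
  by_cases huv : u = v
  · rw [huv]
  · exact SimpleGraph.Adj.reachable (G := (G x m b).induce Sᶜ)
      ⟨fun h' => huv (Subtype.ext h'), h⟩

open Classical in
noncomputable def label {x m b : ℕ} (S : Set (V x m b)) (u : ↥Sᶜ) : Option (Fin m × Bool) :=
  if ∃ z : ↥Sᶜ, IsT z.val ∧ ((G x m b).induce Sᶜ).Reachable u z then none
  else match u.val with
    | Sum.inl _ => none
    | Sum.inr (i, w) => some (i, side (cls w))

lemma label_some {x m b : ℕ} (S : Set (V x m b)) (u : ↥Sᶜ) (i : Fin m) (σ : Bool)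
    (h : label S u = some (i, σ)) :
    (∀ z : ↥Sᶜ, IsT z.val → ¬ ((G x m b).induce Sᶜ).Reachable u z) ∧
      ∃ w, u.val = Sum.inr (i, w) ∧ side (cls w) = σ ∧ ¬ (cls w).val ≤ 1 := by
  unfold label at h
  split_ifs at h with h1
  push Not at h1
  refine ⟨h1, ?_⟩
  obtain ⟨u, hu⟩ := u
  rcases u with y | ⟨j, w⟩
  · simp at h
  · simp only [Option.some.injEq, Prod.mk.injEq] at h
    refine ⟨w, by simp only [h.1], h.2, fun hw => ?_⟩
    exact h1 ⟨Sum.inr (j, w), hu⟩ hw (SimpleGraph.Reachable.refl _)

lemma label_none {x m b : ℕ} (S : Set (V x m b)) (hX : ∀ y, Sum.inl y ∈ S) (u : ↥Sᶜ)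
    (h : label S u = none) :
    ∃ z : ↥Sᶜ, IsT z.val ∧ ((G x m b).induce Sᶜ).Reachable u z := by
  unfold label at h
  split_ifs at h with h1
  · exact h1
  · obtain ⟨u, hu⟩ := u
    rcases u with y | ⟨j, w⟩
    · exact absurd (hX y) hu
    · simp at h

lemma rel_of_IsT {x m b : ℕ} (u v : V x m b) (hu : IsT u) (hv : IsT v) : rel u v := by
  rcases u with u | ⟨i, w⟩ <;> rcases v with v | ⟨j, w'⟩ <;> simp only [rel, IsT] at hu hv ⊢
  exact Or.inr ⟨hu, hv⟩

lemma reach_of_label {x m b : ℕ} (S : Set (V x m b)) (hX : ∀ y, Sum.inl y ∈ S) (u v : ↥Sᶜ)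
    (h : label S u = label S v) : ((G x m b).induce Sᶜ).Reachable u v := by
  rcases hu : label S u with _ | ⟨i, σ⟩
  · obtain ⟨z, hz, hr⟩ := label_none S hX u hu
    obtain ⟨z', hz', hr'⟩ := label_none S hX v (h ▸ hu)
    exact hr.trans ((reach_of_rel S z z' (rel_of_IsT _ _ hz hz')).trans hr'.symm)
  · obtain ⟨_, w, hw, hs, hn⟩ := label_some S u i σ hu
    obtain ⟨_, w', hw', hs', hn'⟩ := label_some S v i σ (h ▸ hu)
    apply reach_of_rel
    rw [hw, hw']
    exact Or.inl ⟨rfl, R_of_side _ _ hn hn' (hs.trans hs'.symm)⟩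

/-- a vertex with a side label reaches every single vertex of its side that is not deleted -/
lemma reach_sg {x m b : ℕ} (S : Set (V x m b)) (u : ↥Sᶜ) (i : Fin m) (σ : Bool)
    (h : label S u = some (i, σ)) (s : Fin 6) (hs : sg i s ∉ S) (h1 : ¬ s.val ≤ 1)
    (h2 : side (c6 s) = σ) :
    ((G x m b).induce Sᶜ).Reachable u ⟨sg i s, hs⟩ := by
  obtain ⟨_, w, hw, hs', hn⟩ := label_some S u i σ h
  apply reach_of_rel
  rw [hw]
  exact Or.inl ⟨rfl, R_of_side _ _ hn h1 (hs'.trans h2.symm)⟩

lemma block {x m b : ℕ} (S : Set (V x m b)) (u : ↥Sᶜ) (i : Fin m) (σ : Bool)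
    (h : label S u = some (i, σ)) (s t : Fin 6) (h1 : ¬ s.val ≤ 1)
    (h2 : side (c6 s) = σ) (ht : t.val ≤ 1)
    (hR : R (c6 s) (c6 t) = true) :
    sg i s ∈ S ∨ sg i t ∈ S := by
  by_contra hc
  push Not at hc
  have h3 := reach_sg S u i σ h s hc.1 h1 h2
  have h4 : ((G x m b).induce Sᶜ).Reachable ⟨sg i s, hc.1⟩ ⟨sg i t, hc.2⟩ :=
    reach_of_rel S _ _ (Or.inl ⟨rfl, hR⟩)
  exact (label_some S u i σ h).1 ⟨sg i t, hc.2⟩ ht (h3.trans h4)

lemma block2 {x m b : ℕ} (S : Set (V x m b)) (u v : ↥Sᶜ) (i : Fin m)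
    (hu : label S u = some (i, false)) (hv : label S v = some (i, true))
    (huv : ¬ ((G x m b).induce Sᶜ).Reachable u v) (s t : Fin 6) (h1 : ¬ s.val ≤ 1)
    (h2 : side (c6 s) = false) (h1' : ¬ t.val ≤ 1)
    (h2' : side (c6 t) = true)
    (hR : R (c6 s) (c6 t) = true) :
    sg i s ∈ S ∨ sg i t ∈ S := by
  by_contra hc
  push Not at hc
  have h3 := reach_sg S u i false hu s hc.1 h1 h2
  have h3' := reach_sg S v i true hv t hc.2 h1' h2'
  have h4 : ((G x m b).induce Sᶜ).Reachable ⟨sg i s, hc.1⟩ ⟨sg i t, hc.2⟩ :=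
    reach_of_rel S _ _ (Or.inl ⟨rfl, hR⟩)
  exact huv (h3.trans (h4.trans h3'.symm))

lemma count6 (P : Fin 6 → Bool) (Q : Bool → Bool)
    (h0 : Q false = true → (P 2 = true ∨ P 0 = true) ∧ (P 3 = true ∨ P 1 = true))
    (h1 : Q true = true → (P 4 = true ∨ P 0 = true) ∧ (P 5 = true ∨ P 1 = true))
    (h2 : Q false = true → Q true = true →
      (P 2 = true ∨ P 4 = true) ∧ (P 3 = true ∨ P 5 = true)) :
    2 * (univ.filter fun σ => Q σ = true).card ≤ (univ.filter fun s => P s = true).card := by
  rw [Finset.card_filter, Finset.card_filter, Fin.sum_univ_six, Fintype.sum_bool]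
  revert h0 h1 h2
  generalize P 0 = a0
  generalize P 1 = a1
  generalize P 2 = a2
  generalize P 3 = a3
  generalize P 4 = a4
  generalize P 5 = a5
  generalize Q false = q0
  generalize Q true = q1
  cases a0 <;> cases a1 <;> cases a2 <;> cases a3 <;> cases a4 <;> cases a5 <;> cases q0 <;>
    cases q1 <;> decide

theorem tough_core {x m b : ℕ} (S : Set (V x m b))
    (hc : 1 < Nat.card ((G x m b).induce Sᶜ).ConnectedComponent) :
    ∃ I : ℕ, I ≤ 2 * m ∧ Nat.card ((G x m b).induce Sᶜ).ConnectedComponent ≤ 1 + I ∧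
      x + 2 * I ≤ S.ncard := by
  classical
  have hX : ∀ y, Sum.inl y ∈ S := by
    intro y
    by_contra hy
    have hpre : ((G x m b).induce Sᶜ).Preconnected := by
      intro u v
      have h1 : ((G x m b).induce Sᶜ).Reachable ⟨Sum.inl y, hy⟩ u :=
        reach_of_rel S _ _ (by simp [rel])
      have h2 : ((G x m b).induce Sᶜ).Reachable ⟨Sum.inl y, hy⟩ v :=
        reach_of_rel S _ _ (by simp [rel])
      exact h1.symm.trans h2
    have := hpre.subsingleton_connectedComponent
    have h1 : Nat.card ((G x m b).induce Sᶜ).ConnectedComponent ≤ 1 := Finite.card_le_one_iff_subsingleton.2 this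
    omega
  let lab : ((G x m b).induce Sᶜ).ConnectedComponent → Option (Fin m × Bool) :=
    fun c => label S (Quot.out c)
  have hout : ∀ c : ((G x m b).induce Sᶜ).ConnectedComponent,
      ((G x m b).induce Sᶜ).connectedComponentMk (Quot.out c) = c := fun c => Quot.out_eq c
  have hinj : Function.Injective lab := by
    intro c c' h
    have := reach_of_label S hX _ _ h
    rw [← hout c, ← hout c']
    exact SimpleGraph.ConnectedComponent.sound this
  let I : Finset (Fin m × Bool) := univ.filter fun z => ∃ c, lab c = some z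
  refine ⟨I.card, ?_, ?_, ?_⟩
  · calc I.card ≤ (univ : Finset (Fin m × Bool)).card := card_le_card (subset_univ _)
      _ = 2 * m := by simp [mul_comm]
  · have h1 : Nat.card ((G x m b).induce Sᶜ).ConnectedComponent ≤
        Nat.card ↥(insertNone I) := by
      refine Nat.card_le_card_of_injective (fun c => ⟨lab c, ?_⟩) ?_
      · rw [mem_insertNone]
        intro a ha
        simp only [I, mem_filter, mem_univ, true_and]
        exact ⟨c, ha⟩
      · intro c c' h
        exact hinj (congrArg Subtype.val h)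
    rw [Nat.card_eq_fintype_card (α := ↥(insertNone I)), Fintype.card_coe, card_insertNone] at h1
    omega
  · let J : Finset (Fin m × Fin 6) := univ.filter fun z => sg z.1 z.2 ∈ S
    have h1 : 2 * I.card ≤ J.card := by
      have e1 : I.card = ∑ i : Fin m, (univ.filter fun σ : Bool =>
          (decide (∃ c, lab c = some (i, σ))) = true).card := by
        simp only [I, card_filter, Fintype.sum_prod_type, decide_eq_true_eq]
      have e2 : J.card = ∑ i : Fin m, (univ.filter fun s : Fin 6 =>
          (decide (sg i s ∈ S)) = true).card := by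
        simp only [J, card_filter, Fintype.sum_prod_type, decide_eq_true_eq]
      rw [e1, e2, mul_sum]
      refine sum_le_sum fun i _ => count6 (fun s => decide (sg i s ∈ S))
        (fun σ => decide (∃ c, lab c = some (i, σ))) ?_ ?_ ?_
      · simp only [decide_eq_true_eq]
        rintro ⟨c, hc⟩
        exact ⟨block S _ i false hc 2 0 (by decide) (by decide) (by decide) (by decide),
          block S _ i false hc 3 1 (by decide) (by decide) (by decide) (by decide)⟩
      · simp only [decide_eq_true_eq]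
        rintro ⟨c, hc⟩
        exact ⟨block S _ i true hc 4 0 (by decide) (by decide) (by decide) (by decide),
          block S _ i true hc 5 1 (by decide) (by decide) (by decide) (by decide)⟩
      · simp only [decide_eq_true_eq]
        rintro ⟨c, hc⟩ ⟨c', hc'⟩
        have hne : ¬ ((G x m b).induce Sᶜ).Reachable (Quot.out c) (Quot.out c') := by
          intro hr
          have h3 : c = c' := by
            rw [← hout c, ← hout c']
            exact SimpleGraph.ConnectedComponent.sound hr
          rw [h3, hc'] at hc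
          simp at hc
        exact ⟨block2 S _ _ i hc hc' hne 2 4 (by decide) (by decide) (by decide) (by decide)
            (by decide),
          block2 S _ _ i hc hc' hne 3 5 (by decide) (by decide) (by decide) (by decide)
            (by decide)⟩
    have h2 : x + J.card ≤ S.ncard := by
      let K : Finset (V x m b) := (univ.image fun y : Fin x => (Sum.inl y : V x m b)) ∪
        (J.image fun z => sg z.1 z.2)
      have hK : K.card = x + J.card := by
        rw [card_union_of_disjoint, card_image_of_injective, card_image_of_injective]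
        · simp
        · intro z z' h
          simp only [Sum.inr.injEq, Prod.mk.injEq, Sum.inl.injEq] at h
          exact Prod.ext h.1 h.2
        · exact Sum.inl_injective
        · rw [disjoint_left]
          intro a ha ha'
          simp only [mem_image, mem_univ, true_and] at ha ha'
          obtain ⟨y, rfl⟩ := ha
          obtain ⟨z, _, hz⟩ := ha'
          simp at hz
      rw [← hK, ← Set.ncard_coe_finset]
      refine Set.ncard_le_ncard ?_ (Set.toFinite _)
      intro a ha
      simp only [K, coe_union, coe_image, Set.mem_union, Set.mem_image, mem_coe, J, mem_filter,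
        mem_univ, true_and] at ha
      rcases ha with ⟨y, _, rfl⟩ | ⟨z, hz, rfl⟩
      · exact hX y
      · exact hz
    omega

end Pool.Agent.Lib.MP_f20cd2_co
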